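import Pool.Agent.H268R3.Soc.Rho

set_option autoImplicit false

open MvPolynomial Finset

namespace Pool.Agent.H268R3.Soc

variable {F : Type} [Field F] [Fintype F] {n : ℕ}

/-- the additive expression `w^q - X_0^{q-1} w` -/
noncomputable def DD (w : Fin (n + 1) → F) : MvPolynomial (Fin (n + 1)) F :=
  (lf w) ^ Fintype.card F - X 0 ^ (Fintype.card F - 1) * lf w

lemma DD_sum (w : Fin (n + 1) → F) : DD w = ∑ i, C (w i) * DD (Pi.single i 1) := by
  unfold DD
  have h1 := frob_lf w 1
  rw [pow_one] at h1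
  rw [h1]
  simp only [lf_single]
  conv_lhs => rw [lf, mul_sum]
  rw [← sum_sub_distrib]
  apply sum_congr rfl
  intro i _
  ring

lemma DD_zero : DD (Pi.single 0 1 : Fin (n + 1) → F) = 0 := by
  unfold DD
  rw [lf_single, ← pow_succ, Nat.sub_add_cancel Fintype.card_pos, sub_self]

lemma DD_homog (w : Fin (n + 1) → F) : (DD w).IsHomogeneous (Fintype.card F) := by
  unfold DD
  apply IsHomogeneous.sub
  · have := (lf_homog w).pow (Fintype.card F)
    rwa [one_mul] at this
  · have := (isHomogeneous_X_pow (R := F) (0 : Fin (n + 1)) (Fintype.card F - 1)).mul (lf_homog w)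
    rwa [Nat.sub_add_cancel Fintype.card_pos] at this

/-- the lift of a polynomial -/
noncomputable def Yh : MvPolynomial (Fin n) F →ₐ[F] MvPolynomial (Fin (n + 1)) F :=
  aeval (fun j => DD (Pi.single j.succ 1))

lemma Yh_X (j : Fin n) : Yh (X j : MvPolynomial (Fin n) F) = DD (Pi.single j.succ 1) := by
  unfold Yh; rw [aeval_X]

lemma Yh_C (a : F) : Yh (C a : MvPolynomial (Fin n) F) = C a := by
  unfold Yh; rw [aeval_C]; rfl

lemma act_DD (g : Matrix (Fin (n + 1)) (Fin (n + 1)) F) (a : F) (ha : a ≠ 0)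
    (hg : g.mulVec (Pi.single 0 1) = a • Pi.single 0 1) (w : Fin (n + 1) → F) :
    act g (DD w) = DD (g.mulVec w) := by
  unfold DD
  rw [map_sub, map_mul, map_pow, map_pow, act_lf]
  have h1 : act g (X 0) = C a * X 0 := by
    rw [← lf_single, act_lf, hg, lf_smul]
  rw [h1, mul_pow, ← map_pow, FiniteField.pow_card_sub_one_eq_one _ ha, map_one, one_mul]

lemma act_Yh (g : Matrix (Fin (n + 1)) (Fin (n + 1)) F) (a : F) (ha : a ≠ 0)
    (hg : g.mulVec (Pi.single 0 1) = a • Pi.single 0 1) (f : MvPolynomial (Fin n) F) :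
    act g (Yh f) = Yh (act (g.submatrix Fin.succ Fin.succ) f) := by
  have h : (act g).comp Yh = Yh.comp (act (g.submatrix Fin.succ Fin.succ)) := by
    apply algHom_ext
    intro j
    rw [AlgHom.comp_apply, AlgHom.comp_apply, Yh_X, act_DD g a ha hg, DD_sum, Fin.sum_univ_succ,
      DD_zero, mul_zero, zero_add, act_X, lf, map_sum]
    apply sum_congr rfl
    intro i _
    rw [map_mul, Yh_C, Yh_X, Matrix.mulVec_single_one]
    rfl
  exact congrArg (fun g : MvPolynomial (Fin n) F →ₐ[F] MvPolynomial (Fin (n + 1)) F => g f) h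

lemma act_Yh_inv (g : Matrix (Fin (n + 1)) (Fin (n + 1)) F) (hdet : IsUnit g.det) (a : F) (ha : a ≠ 0)
    (hg : g.mulVec (Pi.single 0 1) = a • Pi.single 0 1) (f : MvPolynomial (Fin n) F) (hf : IsInv f) :
    act g (Yh f) = Yh f := by
  rw [act_Yh g a ha hg, hf]
  have hcol : ∀ i : Fin n, g i.succ 0 = 0 := by
    intro i
    have := congrFun hg i.succ
    rw [Matrix.mulVec_single_one] at this
    simpa using this
  rw [det_of_col g hcol] at hdet
  exact isUnit_of_mul_isUnit_right hdet

variable (F n) in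
/-- a chosen group element moving the first basis vector to `v` -/
noncomputable def gv (v : Fin (n + 1) → F) : Matrix (Fin (n + 1)) (Fin (n + 1)) F :=
  open Classical in
  if h : v ≠ 0 then Classical.choose (exists_gl 0 v h) else 1

omit [Fintype F] in
lemma gv_det (v : Fin (n + 1) → F) (h : v ≠ 0) : IsUnit (gv F n v).det := by
  unfold gv
  rw [dif_pos h]
  exact (Classical.choose_spec (exists_gl 0 v h)).1

omit [Fintype F] in
lemma gv_spec (v : Fin (n + 1) → F) (h : v ≠ 0) : (gv F n v).mulVec (Pi.single 0 1) = v := by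
  unfold gv
  rw [dif_pos h]
  exact (Classical.choose_spec (exists_gl 0 v h)).2

/-- the conjugates of the lift -/
noncomputable def ft (f : MvPolynomial (Fin n) F) (v : Fin (n + 1) → F) :
    MvPolynomial (Fin (n + 1)) F := act (gv F n v) (Yh f)

lemma ft_eq (f : MvPolynomial (Fin n) F) (hf : IsInv f) (g : Matrix (Fin (n + 1)) (Fin (n + 1)) F)
    (hdet : IsUnit g.det) (v : Fin (n + 1) → F) (hv : v ≠ 0) (a : F) (ha : a ≠ 0)
    (hg : g.mulVec (Pi.single 0 1) = a • v) : act g (Yh f) = ft f v := by
  unfold ft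
  have hu := gv_det v hv
  have h1 : g = gv F n v * ((gv F n v)⁻¹ * g) := by
    rw [← Matrix.mul_assoc, Matrix.mul_nonsing_inv _ hu, Matrix.one_mul]
  have h2 : ((gv F n v)⁻¹ * g).mulVec (Pi.single 0 1) = a • Pi.single 0 1 := by
    rw [← Matrix.mulVec_mulVec, hg, Matrix.mulVec_smul]
    congr 1
    have h := congrArg (fun x => (gv F n v)⁻¹.mulVec x) (gv_spec v hv)
    simp only [Matrix.mulVec_mulVec, Matrix.nonsing_inv_mul _ hu, Matrix.one_mulVec] at h
    exact h.symm
  have h3 : IsUnit ((gv F n v)⁻¹ * g).det := by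
    rw [Matrix.det_mul]
    exact ((Matrix.isUnit_nonsing_inv_det_iff).2 hu).mul hdet
  rw [h1, act_mul, act_Yh_inv _ h3 a ha h2 f hf]

lemma ft_act (f : MvPolynomial (Fin n) F) (hf : IsInv f) (g : Matrix (Fin (n + 1)) (Fin (n + 1)) F)
    (hdet : IsUnit g.det) (v : Fin (n + 1) → F) (hv : v ≠ 0) (hgv : g.mulVec v ≠ 0) :
    act g (ft f v) = ft f (g.mulVec v) := by
  conv_lhs => rw [ft, ← act_mul]
  apply ft_eq f hf _ _ _ hgv 1 one_ne_zero
  · rw [← Matrix.mulVec_mulVec, gv_spec v hv, one_smul]
  · rw [Matrix.det_mul]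
    exact hdet.mul (gv_det v hv)

lemma ft_scalar (f : MvPolynomial (Fin n) F) (hf : IsInv f) (a : F) (ha : a ≠ 0) :
    ft f (a • Pi.single 0 1) = Yh f := by
  have h0 : (a • Pi.single 0 1 : Fin (n + 1) → F) ≠ 0 := by
    intro h
    have := congrFun h 0
    simp at this
    exact ha this
  have h1 := ft_eq f hf 1 (by rw [Matrix.det_one]; exact isUnit_one) (a • Pi.single 0 1) h0 a⁻¹
    (inv_ne_zero ha) (by rw [Matrix.one_mulVec, smul_smul, inv_mul_cancel₀ ha, one_smul])
  rw [← h1, act_one]

lemma rho_Yh (f : MvPolynomial (Fin n) F) : rho (Yh f) = expand (Fintype.card F) f := by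
  have h : (rho (F := F) (n := n)).comp (Yh (F := F) (n := n)) = expand (Fintype.card F) := by
    apply algHom_ext
    intro j
    have hq : 1 < Fintype.card F := Fintype.one_lt_card
    rw [AlgHom.comp_apply, Yh_X, expand_X]
    unfold DD
    rw [lf_single, map_sub, map_mul, map_pow, map_pow, rho_Xs, rho_X0, zero_pow (by omega), zero_mul,
      sub_zero]
  exact congrArg (fun g : MvPolynomial (Fin n) F →ₐ[F] MvPolynomial (Fin n) F => g f) h

omit [Fintype F] in
lemma rho_transvection (j : Fin n) (c : F) (f : MvPolynomial (Fin (n + 1)) F) :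
    rho (act (Matrix.transvection 0 j.succ c) f) = rho f := by
  have h : rho.comp (act (Matrix.transvection 0 j.succ c)) = rho := by
    apply algHom_ext
    intro i
    rw [AlgHom.comp_apply, ← lf_single i, act_lf]
    have : (Matrix.transvection 0 j.succ c).mulVec (Pi.single i 1)
        = Pi.single i 1 + (if i = j.succ then c else 0) • Pi.single 0 1 := by
      ext k
      rw [Matrix.mulVec_single_one, Matrix.col_apply]
      simp only [Matrix.transvection, Matrix.add_apply, Matrix.one_apply, Matrix.single_apply,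
        Pi.add_apply, Pi.single_apply, Pi.smul_apply, smul_eq_mul]
      congr 1
      by_cases h1 : i = j.succ <;> by_cases h2 : k = 0
      · simp [h1, h2]
      · simp [h1, h2, Ne.symm h2]
      · simp [h1, h2, Ne.symm h1]
      · simp [h1, h2, Ne.symm h1]
    rw [this, lf_add, lf_smul, map_add, map_mul, lf_single 0, rho_X0, mul_zero, add_zero]
  exact congrArg (fun g : MvPolynomial (Fin (n + 1)) F →ₐ[F] MvPolynomial (Fin n) F => g f) h

lemma rho_ft_shift (f : MvPolynomial (Fin n) F) (hf : IsInv f) (v : Fin n → F) (hv : v ≠ 0) (a b : F) :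
    rho (ft f (Fin.cons a v)) = rho (ft f (Fin.cons b v)) := by
  obtain ⟨j, hj⟩ := Function.ne_iff.1 hv
  have hne : ∀ x : F, (Fin.cons x v : Fin (n + 1) → F) ≠ 0 := by
    intro x h
    apply hj
    have := congrFun h j.succ
    rwa [Fin.cons_succ] at this
  have h1 : (Matrix.transvection 0 j.succ ((b - a) / v j)).mulVec (Fin.cons a v : Fin (n + 1) → F)
      = Fin.cons b v := by
    ext k
    rw [Matrix.transvection, Matrix.add_mulVec, Matrix.one_mulVec, Matrix.single_mulVec]
    refine Fin.cases ?_ (fun i => ?_) k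
    · simp only [Pi.add_apply, Fin.cons_zero, Function.update_self, Fin.cons_succ]
      rw [div_mul_cancel₀ _ hj]; ring
    · simp [Pi.add_apply, Fin.cons_succ]
  rw [← h1, ← ft_act f hf _ ?_ _ (hne a) (by rw [h1]; exact hne b), rho_transvection]
  rw [Matrix.det_transvection_of_ne _ _ (Fin.succ_ne_zero j).symm]
  exact isUnit_one

/-- the transfer -/
noncomputable def Tf (f : MvPolynomial (Fin n) F) : MvPolynomial (Fin (n + 1)) F :=
  open Classical in
  - ∑ v : Fin (n + 1) → F, if v = 0 then 0 else ft f v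

lemma Tf_inv (f : MvPolynomial (Fin n) F) (hf : IsInv f) : IsInv (Tf f) := by
  classical
  intro g hg
  unfold Tf
  rw [map_neg, map_sum]
  congr 1
  have hgi : Function.Bijective (fun v : Fin (n + 1) → F => g.mulVec v) := by
    refine ⟨?_, ?_⟩
    · intro v w hvw
      have := congrArg (fun x => g⁻¹.mulVec x) hvw
      simpa [Matrix.mulVec_mulVec, Matrix.nonsing_inv_mul _ hg] using this
    · intro v
      refine ⟨g⁻¹.mulVec v, ?_⟩
      simp [Matrix.mulVec_mulVec, Matrix.mul_nonsing_inv _ hg]
  conv_rhs => rw [← Function.Bijective.sum_comp hgi]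
  apply sum_congr rfl
  intro v _
  by_cases h : v = 0
  · rw [if_pos h, h, Matrix.mulVec_zero, if_pos rfl, map_zero]
  · have h2 : g.mulVec v ≠ 0 := by
      intro h3
      apply h
      apply hgi.1
      show g.mulVec v = g.mulVec 0
      rw [h3, Matrix.mulVec_zero]
    rw [if_neg h, if_neg h2, ft_act f hf g hg v h h2]

lemma rho_Tf (f : MvPolynomial (Fin n) F) (hf : IsInv f) :
    rho (Tf f) = expand (Fintype.card F) f := by
  classical
  unfold Tf
  rw [map_neg, map_sum]
  have hcardz : ∀ x : MvPolynomial (Fin n) F, (Fintype.card F : ℕ) • x = 0 := by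
    intro x
    rw [← Nat.cast_smul_eq_nsmul F, FiniteField.cast_card_eq_zero F, zero_smul]
  rw [← (Fin.consEquiv (fun _ : Fin (n + 1) => F)).sum_comp, Fintype.sum_prod_type_right,
    Finset.sum_eq_single_of_mem (0 : Fin n → F) (mem_univ _)]
  · have h1 : ∀ a : F, rho (if (Fin.consEquiv (fun _ : Fin (n + 1) => F)) (a, (0 : Fin n → F)) = 0
        then 0 else ft f ((Fin.consEquiv (fun _ : Fin (n + 1) => F)) (a, (0 : Fin n → F))))
        = expand (Fintype.card F) f - if a = 0 then expand (Fintype.card F) f else 0 := by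
      intro a
      have h2 : (Fin.consEquiv (fun _ : Fin (n + 1) => F)) (a, (0 : Fin n → F)) = a • Pi.single 0 1 := by
        ext k
        refine Fin.cases ?_ (fun i => ?_) k
        · simp [Fin.consEquiv]
        · simp [Fin.consEquiv]
      rw [h2]
      by_cases ha : a = 0
      · rw [if_pos ha, ha, zero_smul, if_pos rfl, map_zero, sub_self]
      · have h3 : (a • Pi.single 0 1 : Fin (n + 1) → F) ≠ 0 := by
          intro h
          have := congrFun h 0
          simp at this
          exact ha this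
        rw [if_neg ha, if_neg h3, ft_scalar f hf a ha, rho_Yh, sub_zero]
    rw [sum_congr rfl (fun a _ => h1 a), sum_sub_distrib, sum_const, card_univ, hcardz, sum_ite_eq',
      if_pos (mem_univ _), zero_sub, neg_neg]
  · intro v _ hv
    have h1 : ∀ a : F, rho (if (Fin.consEquiv (fun _ : Fin (n + 1) => F)) (a, v) = 0
        then 0 else ft f ((Fin.consEquiv (fun _ : Fin (n + 1) => F)) (a, v)))
        = rho (ft f (Fin.cons 0 v)) := by
      intro a
      rw [if_neg]
      · exact rho_ft_shift f hf v hv a 0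
      · intro h
        apply hv
        ext j
        exact congrFun h j.succ
    rw [sum_congr rfl (fun a _ => h1 a), sum_const, card_univ, hcardz]

lemma Tf_homog (f : MvPolynomial (Fin n) F) (m : ℕ) (hf : f.IsHomogeneous m) :
    (Tf f).IsHomogeneous (Fintype.card F * m) := by
  classical
  unfold Tf
  apply IsHomogeneous.neg
  apply IsHomogeneous.sum
  intro v _
  split_ifs
  · exact isHomogeneous_zero _ _ _
  · unfold ft
    apply act_isHomogeneous
    exact IsHomogeneous.aeval hf _ (fun j => DD_homog _)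

theorem map_rho (m : ℕ) :
    Submodule.map (rho (F := F) (n := n)).toLinearMap (InvS F (n + 1) m)
      = if Fintype.card F ∣ m then Submodule.map (expand (Fintype.card F)).toLinearMap
        (InvS F n (m / Fintype.card F)) else ⊥ := by
  ext h
  rw [Submodule.mem_map]
  by_cases hd : Fintype.card F ∣ m
  · rw [if_pos hd, Submodule.mem_map]
    obtain ⟨m', rfl⟩ := hd
    rw [Nat.mul_div_cancel_left _ Fintype.card_pos]
    constructor
    · rintro ⟨f, ⟨hf1, hf2⟩, rfl⟩
      obtain ⟨f', hf', hf'i⟩ := rho_inv f hf2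
      refine ⟨f', ⟨?_, hf'i⟩, hf'.symm⟩
      apply contract_homog _ (Fintype.card_pos (α := F))
      rw [← hf']
      exact rho_homog _ _ hf1
    · rintro ⟨f', ⟨h1, h2⟩, rfl⟩
      exact ⟨Tf f', ⟨Tf_homog f' m' h1, Tf_inv f' h2⟩, rho_Tf f' h2⟩
  · rw [if_neg hd, Submodule.mem_bot]
    constructor
    · rintro ⟨f, ⟨hf1, hf2⟩, rfl⟩
      obtain ⟨f', hf', hf'i⟩ := rho_inv f hf2
      have : f' = 0 := by
        apply contract_zero _ (Fintype.card_pos (α := F)) f' m hd
        rw [← hf']
        exact rho_homog _ _ hf1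
      show rho f = 0
      rw [hf', this, map_zero]
    · rintro rfl
      exact ⟨0, Submodule.zero_mem _, map_zero _⟩

end Pool.Agent.H268R3.Soc
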