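import Pool.Agent.H268R3.Soc.Hom

set_option autoImplicit false

open MvPolynomial Finset

namespace Pool.Agent.H268R3.Soc

/-- a homogeneous polynomial matrix representation, functorial in the coefficient algebra -/
structure PRep (F : Type) [Field F] (n : ℕ) (ι : Type) [Fintype ι] [DecidableEq ι] where
  R : ∀ {B : Type} [CommRing B] [Algebra F B], Matrix (Fin n) (Fin n) B → Matrix ι ι B
  R_mul : ∀ {B : Type} [CommRing B] [Algebra F B] (Y Y' : Matrix (Fin n) (Fin n) B),
    R (Y * Y') = R Y * R Y'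
  R_map : ∀ {B B' : Type} [CommRing B] [Algebra F B] [CommRing B'] [Algebra F B']
    (φ : B →ₐ[F] B') (Y : Matrix (Fin n) (Fin n) B), R (Y.map φ) = (R Y).map φ
  wt : ι → Fin n → ℕ
  R_diag : ∀ {B : Type} [CommRing B] [Algebra F B] (t : Fin n → B),
    R (Matrix.diagonal t) = Matrix.diagonal (fun i => ∏ v, t v ^ wt i v)
  d : ℕ
  wt_sum : ∀ i, ∑ v, wt i v = d

variable {F : Type} [Field F] [Fintype F] {n : ℕ} {ι : Type} [Fintype ι] [DecidableEq ι]
  (P : PRep F n ι)

/-- covariants -/
def IsCov (k : ℕ) (f : ι → MvPolynomial (Fin n) F) : Prop :=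
  ∀ g : Matrix (Fin n) (Fin n) F, IsUnit g.det → ∀ w,
    act g (f w) = C (g.det ^ k) * ∑ v, f v * C (P.R g v w)

/-- invariants -/
def IsInv (f : MvPolynomial (Fin n) F) : Prop :=
  ∀ g : Matrix (Fin n) (Fin n) F, IsUnit g.det → act g f = f

/-- the matrix of the Moore matrix -/
noncomputable def RM : Matrix ι ι (MvPolynomial (Fin n) F) := P.R (moore F n)

/-- the matrix of the adjugate of the Moore matrix -/
noncomputable def RA : Matrix ι ι (MvPolynomial (Fin n) F) := P.R (moore F n).adjugate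

omit [Fintype F] in
lemma R_mapC (g : Matrix (Fin n) (Fin n) F) :
    P.R (g.map (C : F → MvPolynomial (Fin n) F)) = (P.R g).map C :=
  P.R_map (Algebra.ofId F (MvPolynomial (Fin n) F)) g

omit [Fintype F] in
lemma R_scalar {B : Type} [CommRing B] [Algebra F B] (x : B) :
    P.R (x • (1 : Matrix (Fin n) (Fin n) B)) = x ^ P.d • (1 : Matrix ι ι B) := by
  rw [← Matrix.diagonal_one, ← Matrix.diagonal_one, ← Matrix.diagonal_smul, ← Matrix.diagonal_smul,
    P.R_diag]
  congr 1
  ext i
  simp only [Pi.smul_apply, smul_eq_mul, mul_one, prod_pow_eq_pow_sum, P.wt_sum]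

lemma RM_mul_RA : RM P * RA P = (LL F n) ^ P.d • (1 : Matrix ι ι (MvPolynomial (Fin n) F)) := by
  unfold RM RA
  rw [← P.R_mul, Matrix.mul_adjugate]
  exact R_scalar P _

lemma RA_mul_RM : RA P * RM P = (LL F n) ^ P.d • (1 : Matrix ι ι (MvPolynomial (Fin n) F)) := by
  unfold RM RA
  rw [← P.R_mul, Matrix.adjugate_mul]
  exact R_scalar P _

lemma RM_act (g : Matrix (Fin n) (Fin n) F) :
    (RM P).map (act g) = RM P * (P.R g).map C := by
  unfold RM
  rw [← P.R_map, act_moore, P.R_mul, R_mapC]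

lemma RA_act (g : Matrix (Fin n) (Fin n) F) :
    (RA P).map (act g) = (P.R g.adjugate).map C * RA P := by
  unfold RA
  rw [← P.R_map]
  have h1 : (moore F n).adjugate.map (act g) = ((moore F n).map (act g)).adjugate :=
    AlgHom.map_adjugate (act g) (moore F n)
  have h2 : (g.map (C : F → MvPolynomial (Fin n) F)).adjugate = g.adjugate.map C :=
    (RingHom.map_adjugate (C : F →+* MvPolynomial (Fin n) F) g).symm
  rw [h1, act_moore, Matrix.adjugate_mul_distrib, P.R_mul, h2, R_mapC]

/-- the auxiliary row vector -/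
noncomputable def hv (f : ι → MvPolynomial (Fin n) F) : ι → MvPolynomial (Fin n) F :=
  Matrix.vecMul f (RA P)

lemma hv_act (k : ℕ) (f : ι → MvPolynomial (Fin n) F) (hf : IsCov P k f)
    (g : Matrix (Fin n) (Fin n) F) (hg : IsUnit g.det) (s : ι) :
    act g (hv P f s) = C (g.det ^ (k + P.d)) * hv P f s := by
  have h1 : (fun w => act g (f w))
      = (C (g.det ^ k) : MvPolynomial (Fin n) F) • Matrix.vecMul f ((P.R g).map C) := by
    ext w : 1
    rw [hf g hg w]
    rfl
  have h2 : act g (hv P f s) = Matrix.vecMul (fun w => act g (f w)) ((RA P).map (act g)) s := by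
    unfold hv
    simp only [Matrix.vecMul, dotProduct, map_sum, map_mul, Matrix.map_apply]
  rw [h2, h1, RA_act, Matrix.smul_vecMul, Matrix.vecMul_vecMul, ← Matrix.mul_assoc]
  have h3 : (P.R g).map (C : F → MvPolynomial (Fin n) F) * (P.R g.adjugate).map C
      = (C (g.det ^ P.d) : MvPolynomial (Fin n) F) • (1 : Matrix ι ι (MvPolynomial (Fin n) F)) := by
    rw [← R_mapC, ← R_mapC, ← P.R_mul, ← Matrix.map_mul, Matrix.mul_adjugate, R_mapC, R_scalar]
    ext a b : 2
    simp only [Matrix.map_apply, Matrix.smul_apply, Matrix.one_apply, smul_eq_mul]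
    split_ifs <;> simp
  rw [h3, Matrix.smul_mul, Matrix.one_mul, Matrix.vecMul_smul, Pi.smul_apply, Pi.smul_apply,
    smul_smul, smul_eq_mul, ← map_mul, ← pow_add]
  rfl

variable (i0 : Fin n)

lemma cov_dvd (k : ℕ) (f : ι → MvPolynomial (Fin n) F) (hf : IsCov P k f)
    (w : ι) (hk : k + P.wt w i0 + 1 < Fintype.card F) :
    X i0 ^ (P.wt w i0 + k) ∣ f w := by
  classical
  apply exp_ge i0 (P.wt w i0 + k) (by omega)
  intro a ha
  have hdet : (Matrix.diagonal (Function.update (1 : Fin n → F) i0 a)).det = a := by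
    rw [Matrix.det_diagonal, Finset.prod_eq_single_of_mem i0 (mem_univ _)]
    · rw [Function.update_self]
    · intro j _ hj
      rw [Function.update_of_ne hj, Pi.one_apply]
  have h1 := hf (Matrix.diagonal (Function.update (1 : Fin n → F) i0 a))
    (by rw [hdet]; exact Ne.isUnit ha) w
  rw [h1, hdet, P.R_diag, Finset.sum_eq_single_of_mem w (mem_univ _)]
  · rw [Matrix.diagonal_apply_eq, Finset.prod_eq_single_of_mem i0 (mem_univ _)]
    · rw [Function.update_self, pow_add, map_mul]
      simp only [map_pow]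
      ring
    · intro j _ hj
      rw [Function.update_of_ne hj, Pi.one_apply, one_pow]
  · intro v _ hv
    rw [Matrix.diagonal_apply_ne _ hv, C_0, mul_zero]

lemma hv_dvd_X (k : ℕ) (f : ι → MvPolynomial (Fin n) F) (hf : IsCov P k f)
    (hk : ∀ w, k + P.wt w i0 + 1 < Fintype.card F) (s : ι) :
    X i0 ^ (P.d + k) ∣ hv P f s := by
  classical
  let x : MvPolynomial (Fin n) F := X i0
  let D : Fin n → MvPolynomial (Fin n) F := Function.update 1 i0 x
  let M' : Matrix (Fin n) (Fin n) (MvPolynomial (Fin n) F) :=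
    Matrix.of fun a j => if j = i0 then X i0 ^ (Fintype.card F ^ a.val - 1)
      else X j ^ (Fintype.card F ^ a.val)
  have hM : moore F n = M' * Matrix.diagonal D := by
    ext a j : 2
    rw [Matrix.mul_diagonal]
    simp only [moore, M', D, Matrix.of_apply]
    by_cases h : j = i0
    · rw [if_pos h, h, Function.update_self, ← pow_succ, Nat.sub_add_cancel]
      exact Nat.one_le_pow _ _ Fintype.card_pos
    · rw [if_neg h, Function.update_of_ne h, Pi.one_apply, mul_one]
  have hRA : RA P = P.R (Matrix.diagonal D).adjugate * P.R M'.adjugate := by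
    unfold RA
    rw [hM, Matrix.adjugate_mul_distrib, P.R_mul]
  have hD : P.R (Matrix.diagonal D).adjugate
      = Matrix.diagonal (fun w => x ^ (P.d - P.wt w i0)) := by
    rw [Matrix.adjugate_diagonal, P.R_diag]
    congr 1
    ext w : 1
    have h1 : ∀ v, (∏ j ∈ univ.erase v, D j) = if v = i0 then 1 else x := by
      intro v
      by_cases hv : v = i0
      · rw [if_pos hv]
        apply prod_eq_one
        intro j hj
        rw [mem_erase, hv] at hj
        exact Function.update_of_ne hj.1 _ _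
      · rw [if_neg hv, Finset.prod_eq_single_of_mem i0 (mem_erase.2 ⟨fun h => hv h.symm, mem_univ _⟩)]
        · exact Function.update_self _ _ _
        · intro j _ hj
          exact Function.update_of_ne hj _ _
    simp only [h1]
    have h2 : ∀ v, (if v = i0 then (1 : MvPolynomial (Fin n) F) else x) ^ P.wt w v
        = x ^ (if v = i0 then 0 else P.wt w v) := by
      intro v
      by_cases hv : v = i0
      · rw [if_pos hv, if_pos hv, one_pow, pow_zero]
      · rw [if_neg hv, if_neg hv]
    simp only [h2]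
    rw [prod_pow_eq_pow_sum]
    congr 1
    have h3 := P.wt_sum w
    rw [← Finset.add_sum_erase _ _ (mem_univ i0)] at h3
    have h4 : ∑ v, (if v = i0 then 0 else P.wt w v) = ∑ v ∈ univ.erase i0, P.wt w v := by
      rw [← Finset.add_sum_erase _ _ (mem_univ i0), if_pos rfl, zero_add]
      apply sum_congr rfl
      intro v hv
      rw [if_neg (mem_erase.1 hv).1]
    rw [h4]
    omega
  unfold hv
  rw [hRA, hD, ← Matrix.vecMul_vecMul]
  simp only [Matrix.vecMul, dotProduct]
  apply dvd_sum
  intro w _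
  apply Dvd.dvd.mul_right
  apply dvd_sum
  intro v _
  by_cases h : v = w
  · rw [h, Matrix.diagonal_apply_eq]
    obtain ⟨u, hu⟩ := cov_dvd P i0 k f hf w (hk w)
    have hle : P.wt w i0 ≤ P.d := by
      rw [← P.wt_sum w]
      exact single_le_sum (f := fun v => P.wt w v) (fun _ _ => Nat.zero_le _) (mem_univ i0)
    rw [hu]
    refine ⟨u, ?_⟩
    show x ^ (P.wt w i0 + k) * u * x ^ (P.d - P.wt w i0) = x ^ (P.d + k) * u
    rw [mul_right_comm, ← pow_add]
    congr 2
    omega
  · rw [Matrix.diagonal_apply_ne _ h, mul_zero]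
    exact dvd_zero _

lemma hv_dvd_LL (k : ℕ) (f : ι → MvPolynomial (Fin n) F) (hf : IsCov P k f)
    (hk : ∀ w, k + P.wt w i0 + 1 < Fintype.card F) (s : ι) :
    (LL F n) ^ (P.d + k) ∣ hv P f s := by
  apply LL_pow_dvd
  intro v hv0
  obtain ⟨g, hg, hgv⟩ := exists_gl i0 v hv0
  have h1 := map_dvd (act g) (hv_dvd_X P i0 k f hf hk s)
  rw [map_pow, ← lf_single i0, act_lf, hgv, hv_act P k f hf g hg] at h1
  have h2 : IsUnit (C (g.det ^ (k + P.d)) : MvPolynomial (Fin n) F) :=
    IsUnit.map C (hg.pow _)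
  exact (h2.dvd_mul_left).1 h1

lemma C_isUnit_cancel (c : F) (hc : IsUnit c) (a b : MvPolynomial (Fin n) F)
    (h : C c * a = C c * b) : a = b := by
  have h2 : IsUnit (C c : MvPolynomial (Fin n) F) := IsUnit.map C hc
  exact h2.mul_left_cancel h

theorem cov_structure (k : ℕ) (f : ι → MvPolynomial (Fin n) F) (hf : IsCov P k f)
    (hk : ∀ w, k + P.wt w i0 + 1 < Fintype.card F) :
    ∃ c : ι → MvPolynomial (Fin n) F, (∀ s, IsInv (c s)) ∧
      f = (LL F n) ^ k • Matrix.vecMul c (RM P) := by
  choose c hc using hv_dvd_LL P i0 k f hf hk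
  have hL : ∀ e, (LL F n) ^ e ≠ 0 := fun e => pow_ne_zero e LL_ne_zero
  refine ⟨c, ?_, ?_⟩
  · intro s g hg
    have h1 := hv_act P k f hf g hg s
    rw [hc s, map_mul, map_pow, act_LL, mul_pow, ← map_pow, add_comm k P.d] at h1
    rw [mul_assoc] at h1
    have h2 := C_isUnit_cancel _ (hg.pow _) _ _ h1
    exact mul_left_cancel₀ (hL _) h2
  · have h1 : Matrix.vecMul (hv P f) (RM P) = (LL F n) ^ P.d • f := by
      unfold hv
      rw [Matrix.vecMul_vecMul, RA_mul_RM, Matrix.vecMul_smul, Matrix.vecMul_one]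
    have h2 : hv P f = (LL F n) ^ (P.d + k) • c := by
      ext s : 1
      rw [hc s]; rfl
    rw [h2, Matrix.smul_vecMul, pow_add, mul_smul] at h1
    ext w : 1
    have h3 := congrFun h1 w
    simp only [Pi.smul_apply, smul_eq_mul] at h3
    have h4 := mul_left_cancel₀ (hL _) h3
    rw [← h4]
    rfl

lemma vecMul_RM_inj (c : ι → MvPolynomial (Fin n) F) (h : Matrix.vecMul c (RM P) = 0) : c = 0 := by
  have h1 : Matrix.vecMul (Matrix.vecMul c (RM P)) (RA P) = (LL F n) ^ P.d • c := by
    rw [Matrix.vecMul_vecMul, RM_mul_RA, Matrix.vecMul_smul, Matrix.vecMul_one]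
  rw [h, Matrix.zero_vecMul] at h1
  ext s : 1
  have h2 := (congrFun h1 s).symm
  simp only [Pi.smul_apply, smul_eq_mul, Pi.zero_apply] at h2
  exact (mul_eq_zero.1 h2).resolve_left (pow_ne_zero _ LL_ne_zero)

lemma cov_of_inv (k : ℕ) (c : ι → MvPolynomial (Fin n) F) (hc : ∀ s, IsInv (c s)) :
    IsCov P k ((LL F n) ^ k • Matrix.vecMul c (RM P)) := by
  intro g hg w
  have h1 : act g (Matrix.vecMul c (RM P) w) = Matrix.vecMul c ((RM P).map (act g)) w := by
    simp only [Matrix.vecMul, dotProduct, map_sum, map_mul, Matrix.map_apply]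
    exact sum_congr rfl (fun s _ => by rw [hc s g hg])
  rw [Pi.smul_apply, smul_eq_mul, map_mul, map_pow, act_LL, h1, RM_act, ← Matrix.vecMul_vecMul,
    mul_pow, ← map_pow, mul_assoc]
  congr 1
  simp only [Matrix.vecMul, dotProduct, Pi.smul_apply, smul_eq_mul, Matrix.map_apply, mul_sum,
    sum_mul]
  apply sum_congr rfl; intro v _
  apply sum_congr rfl; intro u _
  ring

/-- row degrees -/
def edeg (s : ι) : ℕ := ∑ v, P.wt s v * Fintype.card F ^ v.val

lemma RM_homog (s w : ι) : (RM P s w).IsHomogeneous (edeg P s) := by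
  apply homog_of_psi
  have h1 : (moore F n).map psi = Matrix.diagonal (fun a : Fin n =>
      (Polynomial.X : Polynomial (MvPolynomial (Fin n) F)) ^ (Fintype.card F ^ a.val)) *
      (moore F n).map (Polynomial.CAlgHom (R := F) (A := MvPolynomial (Fin n) F)) := by
    ext a j : 2
    rw [Matrix.diagonal_mul]
    simp only [moore, Matrix.map_apply, Matrix.of_apply, map_pow, psi_X, mul_pow]
    rfl
  have h2 := P.R_map (psi (F := F) (n := n)) (moore F n)
  rw [h1, P.R_mul, P.R_diag, P.R_map] at h2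
  have h3 := congrFun (congrFun h2 s) w
  rw [Matrix.diagonal_mul] at h3
  simp only [Matrix.map_apply] at h3
  show psi (P.R (moore F n) s w) = _ * Polynomial.C (P.R (moore F n) s w)
  rw [← h3]
  congr 1
  unfold edeg
  rw [← prod_pow_eq_pow_sum]
  apply prod_congr rfl
  intro v _
  rw [← pow_mul, mul_comm]

end Pool.Agent.H268R3.Soc
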