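import Pool.Agent.H268R3.Soc.Cov

set_option autoImplicit false

open MvPolynomial Finset

namespace Pool.Agent.H268R3.Soc

section inv
variable (F : Type) [Field F] [Fintype F] (n : ℕ)

/-- homogeneous invariants of degree `m` -/
def InvS (m : ℕ) : Submodule F (MvPolynomial (Fin n) F) where
  carrier := {f | f.IsHomogeneous m ∧ IsInv f}
  add_mem' := by
    rintro f g ⟨h1, h2⟩ ⟨h3, h4⟩
    exact ⟨h1.add h3, fun x hx => by rw [map_add, h2 x hx, h4 x hx]⟩
  zero_mem' := ⟨isHomogeneous_zero _ _ _, fun x _ => map_zero _⟩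
  smul_mem' := by
    rintro c f ⟨h1, h2⟩
    exact ⟨(homogeneousSubmodule (Fin n) F m).smul_mem c h1,
      fun x hx => by rw [map_smul, h2 x hx]⟩

/-- shifted version -/
noncomputable def InvE (e m : ℕ) : Submodule F (MvPolynomial (Fin n) F) :=
  if e ≤ m then InvS F n (m - e) else ⊥

/-- Hilbert series of the invariants -/
noncomputable def HS : PowerSeries ℤ :=
  PowerSeries.mk (fun m => (Module.finrank F (InvS F n m) : ℤ))

omit [Fintype F] in
lemma finite_homog (m : ℕ) : Module.Finite F (homogeneousSubmodule (Fin n) F m) :=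
  Module.Finite.iff_fg.2 (homogeneousSubmodule_fg (Fin n) F m)

instance (m : ℕ) : Module.Finite F (InvS F n m) := by
  haveI := finite_homog F n m
  exact Submodule.finiteDimensional_of_le (S₂ := homogeneousSubmodule (Fin n) F m)
    (fun f hf => hf.1)

instance (e m : ℕ) : Module.Finite F (InvE F n e m) := by
  by_cases h : e ≤ m
  · have h1 : InvE F n e m = InvS F n (m - e) := if_pos h
    rw [h1]; infer_instance
  · have h1 : InvE F n e m = ⊥ := if_neg h
    rw [h1]; infer_instance

lemma finrank_InvE (e m : ℕ) : (Module.finrank F (InvE F n e m) : ℤ)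
    = PowerSeries.coeff m (PowerSeries.X ^ e * HS F n) := by
  rw [PowerSeries.coeff_X_pow_mul']
  by_cases h : e ≤ m
  · have h1 : InvE F n e m = InvS F n (m - e) := if_pos h
    rw [h1, if_pos h, HS, PowerSeries.coeff_mk]
  · have h1 : InvE F n e m = ⊥ := if_neg h
    rw [h1, if_neg h, finrank_bot]; rfl

end inv

section cov
variable {F : Type} [Field F] [Fintype F] {n : ℕ} {ι : Type} [Fintype ι] [DecidableEq ι]
  (P : PRep F n ι)

/-- covariants of degree `m` -/
def CovS (k m : ℕ) : Submodule F (ι → MvPolynomial (Fin n) F) where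
  carrier := {f | (∀ w, (f w).IsHomogeneous m) ∧ IsCov P k f}
  add_mem' := by
    rintro f g ⟨h1, h2⟩ ⟨h3, h4⟩
    refine ⟨fun w => (h1 w).add (h3 w), fun x hx w => ?_⟩
    rw [Pi.add_apply, map_add, h2 x hx w, h4 x hx w, ← mul_add, ← sum_add_distrib]
    congr 1
    apply sum_congr rfl
    intro v _
    rw [Pi.add_apply, add_mul]
  zero_mem' := by
    refine ⟨fun w => isHomogeneous_zero _ _ _, fun x _ w => ?_⟩
    rw [Pi.zero_apply, map_zero]
    simp
  smul_mem' := by
    rintro c f ⟨h1, h2⟩
    refine ⟨fun w => (homogeneousSubmodule (Fin n) F m).smul_mem c (h1 w), fun x hx w => ?_⟩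
    rw [Pi.smul_apply, map_smul, h2 x hx w, ← mul_smul_comm, smul_sum]
    congr 1
    apply sum_congr rfl
    intro v _
    rw [Pi.smul_apply, smul_mul_assoc]

lemma InvE_spec {e m : ℕ} {f : MvPolynomial (Fin n) F} (hf : f ∈ InvE F n e m) :
    IsInv f ∧ ∀ (g : MvPolynomial (Fin n) F), g.IsHomogeneous e → (f * g).IsHomogeneous m := by
  unfold InvE at hf
  split_ifs at hf with h
  · refine ⟨hf.2, fun g hg => ?_⟩
    have := hf.1.mul hg
    rwa [Nat.sub_add_cancel h] at this
  · rw [Submodule.mem_bot] at hf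
    rw [hf]
    refine ⟨fun x _ => map_zero _, fun g _ => ?_⟩
    rw [zero_mul]
    exact isHomogeneous_zero _ _ _

/-- the parametrisation of covariants by invariants -/
noncomputable def covMap (k m : ℕ) :
    (∀ s : ι, InvE F n (k * delta F n + edeg P s) m) →ₗ[F] CovS P k m where
  toFun c := ⟨(LL F n) ^ k • Matrix.vecMul (fun s => (c s).val) (RM P), by
    refine ⟨fun w => ?_, cov_of_inv P k _ (fun s => (InvE_spec (c s).2).1)⟩
    rw [Pi.smul_apply, smul_eq_mul, Matrix.vecMul, dotProduct, mul_sum]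
    apply IsHomogeneous.sum
    intro s _
    have h1 := (LL_homog (F := F) (n := n)).pow k
    have h2 := h1.mul (RM_homog P s w)
    rw [mul_comm (delta F n) k] at h2
    have h3 := (InvE_spec (c s).2).2 _ h2
    rwa [show (LL F n) ^ k * ((c s).val * RM P s w) = (c s).val * ((LL F n) ^ k * RM P s w) by ring]⟩
  map_add' c c' := by
    apply Subtype.ext
    show (LL F n) ^ k • Matrix.vecMul (fun s => ((c + c') s).val) (RM P)
      = (LL F n) ^ k • Matrix.vecMul (fun s => (c s).val) (RM P)
        + (LL F n) ^ k • Matrix.vecMul (fun s => (c' s).val) (RM P)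
    rw [← smul_add, ← Matrix.add_vecMul]
    rfl
  map_smul' a c := by
    apply Subtype.ext
    show (LL F n) ^ k • Matrix.vecMul (fun s => ((a • c) s).val) (RM P)
      = a • ((LL F n) ^ k • Matrix.vecMul (fun s => (c s).val) (RM P))
    rw [smul_comm a]
    congr 1
    rw [← Matrix.smul_vecMul]
    rfl

lemma covMap_injective (k m : ℕ) : Function.Injective (covMap P k m) := by
  rw [← LinearMap.ker_eq_bot, LinearMap.ker_eq_bot']
  intro c hc
  have h1 : (LL F n) ^ k • Matrix.vecMul (fun s => (c s).val) (RM P) = 0 := congrArg Subtype.val hc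
  have h2 : Matrix.vecMul (fun s => (c s).val) (RM P) = 0 := by
    ext w : 1
    have h3 := congrFun h1 w
    rw [Pi.smul_apply, smul_eq_mul, Pi.zero_apply] at h3
    exact (mul_eq_zero.1 h3).resolve_left (pow_ne_zero _ LL_ne_zero)
  have h4 := vecMul_RM_inj P _ h2
  ext s : 1
  apply Subtype.ext
  exact congrFun h4 s

lemma covMap_surjective (i0 : Fin n) (k m : ℕ) (hk : ∀ w, k + P.wt w i0 + 1 < Fintype.card F) :
    Function.Surjective (covMap P k m) := by
  rintro ⟨f, hf1, hf2⟩
  obtain ⟨c, hc, hfc⟩ := cov_structure P i0 k f hf2 hk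
  refine ⟨fun s => ⟨if k * delta F n + edeg P s ≤ m then
    homogeneousComponent (m - (k * delta F n + edeg P s)) (c s) else 0, ?_⟩, ?_⟩
  · unfold InvE
    split_ifs
    · refine ⟨homogeneousComponent_isHomogeneous _ _, fun g hg => ?_⟩
      rw [act_hc, hc s g hg]
    · exact Submodule.zero_mem _
  · apply Subtype.ext
    show (LL F n) ^ k • Matrix.vecMul (fun s => _) (RM P) = f
    ext w : 1
    rw [← homogeneousComponent_eq_self (hf1 w), hfc]
    simp only [Pi.smul_apply, smul_eq_mul, Matrix.vecMul, dotProduct, mul_sum, map_sum]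
    apply sum_congr rfl
    intro s _
    have h1 := (LL_homog (F := F) (n := n)).pow k
    have h2 := h1.mul (RM_homog P s w)
    rw [mul_comm (delta F n) k] at h2
    rw [show (LL F n) ^ k * (c s * RM P s w) = c s * ((LL F n) ^ k * RM P s w) by ring,
      hc_mul _ _ _ _ h2]
    split_ifs
    · ring
    · ring

theorem finrank_CovS (i0 : Fin n) (k m : ℕ) (hk : ∀ w, k + P.wt w i0 + 1 < Fintype.card F) :
    (Module.finrank F (CovS P k m) : ℤ)
      = PowerSeries.coeff m (PowerSeries.X ^ (k * delta F n) * (∑ s, PowerSeries.X ^ (edeg P s)) * HS F n) := by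
  rw [← (LinearEquiv.ofBijective (covMap P k m)
    ⟨covMap_injective P k m, covMap_surjective P i0 k m hk⟩).finrank_eq, Module.finrank_pi_fintype]
  push_cast
  simp only [finrank_InvE]
  rw [← map_sum, mul_sum, sum_mul]
  simp only [pow_add]

end cov

end Pool.Agent.H268R3.Soc
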