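import Mathlib

set_option autoImplicit false

open MvPolynomial Finset

namespace Pool.Agent.H268R3.Soc

section
variable (A : Type) [CommRing A] (n : ℕ)

/-- polynomial ring on the entries of a generic matrix with columns indexed by `Fin n` -/
abbrev ZR : Type := MvPolynomial (ℕ × Fin n) A

end

section
variable {A : Type} [CommRing A] {n : ℕ}

/-- a minor on the first `l` rows and on the columns `κ 0, …, κ (l-1)` -/
noncomputable def cdet (A : Type) [CommRing A] {n : ℕ} (l : ℕ) (κ : ℕ → Fin n) : ZR A n :=
  Matrix.det (Matrix.of fun a b : Fin l => (X (a.val, κ b.val) : ZR A n))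

/-- a bideterminant : product of initial minors, one for each column of the shape -/
noncomputable def bdet (A : Type) [CommRing A] {n : ℕ} (c : ℕ) (l : ℕ → ℕ) (T : ℕ → ℕ → Fin n) :
    ZR A n :=
  ∏ j ∈ range c, cdet A (l j) (fun b => T b j)

lemma cdet_congr (l : ℕ) (κ κ' : ℕ → Fin n) (h : ∀ b < l, κ b = κ' b) :
    cdet A l κ = cdet A l κ' := by
  unfold cdet
  congr 1
  ext a b : 2
  simp only [Matrix.of_apply]
  rw [h b.val b.isLt]

lemma bdet_congr (c : ℕ) (l : ℕ → ℕ) (T T' : ℕ → ℕ → Fin n)
    (h : ∀ j < c, ∀ b < l j, T b j = T' b j) : bdet A c l T = bdet A c l T' := by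
  unfold bdet
  apply prod_congr rfl
  intro j hj
  exact cdet_congr _ _ _ (fun b hb => h j (mem_range.1 hj) b hb)

lemma cdet_perm (l : ℕ) (κ : ℕ → Fin n) (σ : Equiv.Perm (Fin l)) (κ' : ℕ → Fin n)
    (h : ∀ b : Fin l, κ' b.val = κ (σ b).val) :
    cdet A l κ' = (Equiv.Perm.sign σ : ℤ) • cdet A l κ := by
  unfold cdet
  have h1 : (Matrix.of fun a b : Fin l => (X (a.val, κ' b.val) : ZR A n))
      = (Matrix.of fun a b : Fin l => (X (a.val, κ b.val) : ZR A n)).submatrix id σ := by
    ext a b : 2
    simp only [Matrix.of_apply, Matrix.submatrix_apply, id, h]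
  rw [h1, Matrix.det_permute']
  simp [zsmul_eq_mul]

lemma cdet_eq_zero (l : ℕ) (κ : ℕ → Fin n) (b b' : Fin l) (hne : b ≠ b') (h : κ b.val = κ b'.val) :
    cdet A l κ = 0 := by
  unfold cdet
  apply Matrix.det_zero_of_column_eq hne
  intro a
  simp only [Matrix.of_apply, h]

end

section Garnir

variable {R : Type} [CommRing R] (L M i0 : ℕ)
  (P : Matrix (Fin L) ℕ R) (Q : Matrix (Fin M) ℕ R)

/-- left matrix in the Garnir relation -/
def lm (v : Fin (L + 1) → Fin L → R) : Matrix (Fin L) (Fin L) R :=
  Matrix.of fun a b => if b.val < i0 then P a b.val else v b.succ a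

/-- right matrix in the Garnir relation -/
def rm (hM : M ≤ L) (v : Fin (L + 1) → Fin L → R) : Matrix (Fin M) (Fin M) R :=
  Matrix.of fun a b => if i0 < b.val then Q a b.val else
    v ⟨b.val, by omega⟩ (Fin.castLE hM a)

lemma lm_update_lt (hM : M ≤ L) (v : Fin (L + 1) → Fin L → R) (t : Fin (L + 1)) (ht : t.val ≤ i0)
    (z : Fin L → R) : lm L i0 P (Function.update v t z) = lm L i0 P v := by
  ext a b : 2
  simp only [lm, Matrix.of_apply]
  split_ifs with h
  · rfl
  · rw [Function.update_of_ne]
    intro he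
    have : t.val = b.val + 1 := by rw [← he]; rfl
    omega

lemma lm_update_gt (v : Fin (L + 1) → Fin L → R) (b0 : Fin L) (ht : i0 ≤ b0.val)
    (z : Fin L → R) : lm L i0 P (Function.update v b0.succ z) = (lm L i0 P v).updateCol b0 z := by
  ext a b : 2
  simp only [lm, Matrix.of_apply, Matrix.updateCol_apply]
  by_cases hb : b = b0
  · subst hb
    rw [if_neg (by omega), if_pos rfl, Function.update_self]
  · rw [if_neg hb]
    split_ifs with h
    · rfl
    · rw [Function.update_of_ne]
      intro he
      exact hb (Fin.succ_injective _ he)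

lemma rm_update_lt (hM : M ≤ L) (hi : i0 < M) (v : Fin (L + 1) → Fin L → R) (t : Fin (L + 1))
    (ht : t.val ≤ i0) (z : Fin L → R) : rm L M i0 Q hM (Function.update v t z)
      = (rm L M i0 Q hM v).updateCol ⟨t.val, by omega⟩ (fun a => z (Fin.castLE hM a)) := by
  ext a b : 2
  simp only [rm, Matrix.of_apply, Matrix.updateCol_apply]
  by_cases hb : b.val = t.val
  · have hb' : b = ⟨t.val, by omega⟩ := Fin.ext hb
    rw [if_neg (by omega), if_pos hb']
    have : (⟨b.val, by omega⟩ : Fin (L + 1)) = t := Fin.ext hb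
    rw [this, Function.update_self]
  · have hb' : ¬ b = ⟨t.val, by omega⟩ := fun h => hb (by rw [h])
    rw [if_neg hb']
    split_ifs with h
    · rfl
    · rw [Function.update_of_ne]
      intro he
      exact hb (by rw [← he])

lemma rm_update_gt (hM : M ≤ L) (v : Fin (L + 1) → Fin L → R) (t : Fin (L + 1))
    (ht : i0 < t.val) (z : Fin L → R) : rm L M i0 Q hM (Function.update v t z)
      = rm L M i0 Q hM v := by
  ext a b : 2
  simp only [rm, Matrix.of_apply]
  split_ifs with h
  · rfl
  · rw [Function.update_of_ne]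
    intro he
    have : b.val = t.val := by rw [← he]
    omega

/-- the multilinear map behind the Garnir relation -/
def gmap (hM : M ≤ L) (hi : i0 < M) : MultilinearMap R (fun _ : Fin (L + 1) => (Fin L → R)) R where
  toFun v := (lm L i0 P v).det * (rm L M i0 Q hM v).det
  map_update_add' := by
    intro inst v t x y
    have hinst : inst = instDecidableEqFin (L + 1) := Subsingleton.elim _ _
    subst hinst
    by_cases ht : t.val ≤ i0
    · rw [lm_update_lt L M i0 P hM _ _ ht, lm_update_lt L M i0 P hM _ _ ht,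
        lm_update_lt L M i0 P hM _ _ ht, rm_update_lt L M i0 Q hM hi _ _ ht,
        rm_update_lt L M i0 Q hM hi _ _ ht, rm_update_lt L M i0 Q hM hi _ _ ht, ← mul_add]
      congr 1
      exact Matrix.det_updateCol_add _ _ _ _
    · have ht' : i0 < t.val := by omega
      obtain ⟨b0, rfl⟩ := Fin.exists_succ_eq.2 (show t ≠ 0 from fun h => by rw [h] at ht'; simp at ht')
      have hb0 : i0 ≤ b0.val := by simp at ht'; omega
      rw [rm_update_gt L M i0 Q hM _ _ ht', rm_update_gt L M i0 Q hM _ _ ht',
        rm_update_gt L M i0 Q hM _ _ ht', lm_update_gt L i0 P _ _ hb0, lm_update_gt L i0 P _ _ hb0,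
        lm_update_gt L i0 P _ _ hb0, ← add_mul]
      congr 1
      exact Matrix.det_updateCol_add _ _ _ _
  map_update_smul' := by
    intro inst v t c x
    have hinst : inst = instDecidableEqFin (L + 1) := Subsingleton.elim _ _
    subst hinst
    by_cases ht : t.val ≤ i0
    · rw [lm_update_lt L M i0 P hM _ _ ht, lm_update_lt L M i0 P hM _ _ ht,
        rm_update_lt L M i0 Q hM hi _ _ ht, rm_update_lt L M i0 Q hM hi _ _ ht, smul_eq_mul,
        mul_left_comm]
      congr 1
      exact Matrix.det_updateCol_smul _ _ _ _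
    · have ht' : i0 < t.val := by omega
      obtain ⟨b0, rfl⟩ := Fin.exists_succ_eq.2 (show t ≠ 0 from fun h => by rw [h] at ht'; simp at ht')
      have hb0 : i0 ≤ b0.val := by simp at ht'; omega
      rw [rm_update_gt L M i0 Q hM _ _ ht', rm_update_gt L M i0 Q hM _ _ ht',
        lm_update_gt L i0 P _ _ hb0, lm_update_gt L i0 P _ _ hb0, smul_eq_mul, ← mul_assoc]
      congr 1
      exact Matrix.det_updateCol_smul _ _ _ _

lemma gmap_apply (hM : M ≤ L) (hi : i0 < M) (v : Fin (L + 1) → Fin L → R) :
    gmap L M i0 P Q hM hi v = (lm L i0 P v).det * (rm L M i0 Q hM v).det := rfl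

/-- the Garnir relation -/
theorem garnir (hM : M ≤ L) (hi : i0 < M) (v : Fin (L + 1) → Fin L → R) :
    ∑ σ : Equiv.Perm (Fin (L + 1)), (Equiv.Perm.sign σ : ℤ) •
      ((lm L i0 P (fun t => v (σ t))).det * (rm L M i0 Q hM (fun t => v (σ t))).det) = 0 := by
  have h0 : MultilinearMap.alternatization (gmap L M i0 P Q hM hi) = 0 := by
    apply Module.Basis.ext_alternating (Pi.basisFun R (Fin L))
    intro w hw
    exfalso
    have := Fintype.card_le_of_injective w hw
    simp at this
  have h1 := congrArg (fun f => f v) h0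
  simp only [MultilinearMap.alternatization_apply, AlternatingMap.zero_apply] at h1
  rw [← h1]
  apply sum_congr rfl
  intro σ _
  rw [MultilinearMap.domDomCongr_apply, gmap_apply]
  rfl

end Garnir

end Pool.Agent.H268R3.Soc
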