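import Pool.Agent.H268R3.Soc.Garnir

set_option autoImplicit false

open MvPolynomial Finset

namespace Pool.Agent.H268R3.Soc

section GarnirH

variable {R : Type} [CommRing R] (L M i0 : ℕ)
  (P : Matrix (Fin L) ℕ R) (Q : Matrix (Fin M) ℕ R)

/-- shorthand for the product of the two determinants -/
noncomputable def EE (hM : M ≤ L) (v : Fin (L + 1) → Fin L → R) : R :=
  (lm L i0 P v).det * (rm L M i0 Q hM v).det

lemma EE_swap_le (hM : M ≤ L) (hi : i0 < M) (v : Fin (L + 1) → Fin L → R) (s t : Fin (L + 1))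
    (hs : s.val ≤ i0) (ht : t.val ≤ i0) (hst : s ≠ t) :
    EE L M i0 P Q hM (fun x => v (Equiv.swap s t x)) = - EE L M i0 P Q hM v := by
  unfold EE
  have h1 : lm L i0 P (fun x => v (Equiv.swap s t x)) = lm L i0 P v := by
    ext a b : 2
    simp only [lm, Matrix.of_apply]
    split_ifs with h
    · rfl
    · rw [Equiv.swap_apply_of_ne_of_ne]
      · intro he; rw [← he] at hs; simp at hs; omega
      · intro he; rw [← he] at ht; simp at ht; omega
  have h2 : rm L M i0 Q hM (fun x => v (Equiv.swap s t x)) =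
      (rm L M i0 Q hM v).submatrix id (Equiv.swap ⟨s.val, by omega⟩ ⟨t.val, by omega⟩) := by
    ext a b : 2
    simp only [rm, Matrix.of_apply, Matrix.submatrix_apply, id]
    by_cases hbs : b.val = s.val
    · have e1 : b = ⟨s.val, by omega⟩ := Fin.ext hbs
      have e2 : (⟨b.val, by omega⟩ : Fin (L + 1)) = s := Fin.ext hbs
      rw [e2, e1, Equiv.swap_apply_left, Equiv.swap_apply_left, if_neg (by simp; omega),
        if_neg (by simp; omega)]
    · by_cases hbt : b.val = t.val
      · have e1 : b = ⟨t.val, by omega⟩ := Fin.ext hbt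
        have e2 : (⟨b.val, by omega⟩ : Fin (L + 1)) = t := Fin.ext hbt
        rw [e2, e1, Equiv.swap_apply_right, Equiv.swap_apply_right, if_neg (by simp; omega),
          if_neg (by simp; omega)]
      · rw [Equiv.swap_apply_of_ne_of_ne (fun h => hbs (by rw [← h])) (fun h => hbt (by rw [← h])),
          Equiv.swap_apply_of_ne_of_ne (fun h => hbs (by rw [h])) (fun h => hbt (by rw [h]))]
  rw [h1, h2, Matrix.det_permute', Equiv.Perm.sign_swap]
  · simp
  · intro h
    apply hst
    exact Fin.ext (congrArg Fin.val h : _)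

lemma EE_swap_gt (hM : M ≤ L) (hi : i0 < M) (v : Fin (L + 1) → Fin L → R) (s t : Fin (L + 1))
    (hs : i0 < s.val) (ht : i0 < t.val) (hst : s ≠ t) :
    EE L M i0 P Q hM (fun x => v (Equiv.swap s t x)) = - EE L M i0 P Q hM v := by
  unfold EE
  obtain ⟨s0, rfl⟩ := Fin.exists_succ_eq.2 (show s ≠ 0 from fun h => by rw [h] at hs; simp at hs)
  obtain ⟨t0, rfl⟩ := Fin.exists_succ_eq.2 (show t ≠ 0 from fun h => by rw [h] at ht; simp at ht)
  simp only [Fin.val_succ] at hs ht
  have h1 : rm L M i0 Q hM (fun x => v (Equiv.swap s0.succ t0.succ x)) = rm L M i0 Q hM v := by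
    ext a b : 2
    simp only [rm, Matrix.of_apply]
    split_ifs with h
    · rfl
    · rw [Equiv.swap_apply_of_ne_of_ne]
      · intro he
        have := congrArg Fin.val he
        simp at this; omega
      · intro he
        have := congrArg Fin.val he
        simp at this; omega
  have h2 : lm L i0 P (fun x => v (Equiv.swap s0.succ t0.succ x)) =
      (lm L i0 P v).submatrix id (Equiv.swap s0 t0) := by
    ext a b : 2
    simp only [lm, Matrix.of_apply, Matrix.submatrix_apply, id]
    by_cases hbs : b = s0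
    · subst hbs
      rw [Equiv.swap_apply_left, Equiv.swap_apply_left, if_neg (by omega), if_neg (by omega)]
    · by_cases hbt : b = t0
      · subst hbt
        rw [Equiv.swap_apply_right, Equiv.swap_apply_right, if_neg (by omega), if_neg (by omega)]
      · rw [Equiv.swap_apply_of_ne_of_ne (fun h => hbs (Fin.succ_injective _ h))
          (fun h => hbt (Fin.succ_injective _ h)), Equiv.swap_apply_of_ne_of_ne hbs hbt]
  rw [h1, h2, Matrix.det_permute', Equiv.Perm.sign_swap]
  · simp
  · intro h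
    exact hst (by rw [h])

lemma EE_perm_le (hM : M ≤ L) (hi : i0 < M) (α : Equiv.Perm {t : Fin (L + 1) // t.val ≤ i0}) :
    ∀ v : Fin (L + 1) → Fin L → R, EE L M i0 P Q hM (fun x => v (Equiv.Perm.ofSubtype α x))
      = (Equiv.Perm.sign α : ℤ) • EE L M i0 P Q hM v := by
  induction α using Equiv.Perm.swap_induction_on' with
  | one => intro v; simp
  | mul_swap f x y hxy ih =>
    intro v
    have h1 : (fun z => v (Equiv.Perm.ofSubtype (f * Equiv.swap x y) z))
      = (fun z => (fun w => v (Equiv.Perm.ofSubtype f w)) (Equiv.swap x.val y.val z)) := by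
      funext z
      rw [map_mul, Equiv.Perm.ofSubtype_swap_eq]
      rfl
    rw [h1]
    refine (EE_swap_le L M i0 P Q hM hi (fun w => v (Equiv.Perm.ofSubtype f w)) x.val y.val x.2 y.2
      (fun h => hxy (Subtype.ext h))).trans ?_
    rw [ih,
      Equiv.Perm.sign_mul, Equiv.Perm.sign_swap hxy]
    simp

lemma EE_perm_gt (hM : M ≤ L) (hi : i0 < M) (α : Equiv.Perm {t : Fin (L + 1) // ¬ t.val ≤ i0}) :
    ∀ v : Fin (L + 1) → Fin L → R, EE L M i0 P Q hM (fun x => v (Equiv.Perm.ofSubtype α x))
      = (Equiv.Perm.sign α : ℤ) • EE L M i0 P Q hM v := by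
  induction α using Equiv.Perm.swap_induction_on' with
  | one => intro v; simp
  | mul_swap f x y hxy ih =>
    intro v
    have h1 : (fun z => v (Equiv.Perm.ofSubtype (f * Equiv.swap x y) z))
      = (fun z => (fun w => v (Equiv.Perm.ofSubtype f w)) (Equiv.swap x.val y.val z)) := by
      funext z
      rw [map_mul, Equiv.Perm.ofSubtype_swap_eq]
      rfl
    rw [h1]
    refine (EE_swap_gt L M i0 P Q hM hi (fun w => v (Equiv.Perm.ofSubtype f w)) x.val y.val
      (not_le.1 x.2) (not_le.1 y.2) (fun h => hxy (Subtype.ext h))).trans ?_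
    rw [ih, Equiv.Perm.sign_mul, Equiv.Perm.sign_swap hxy]
    simp

/-- permutations preserving the two blocks -/
def HH : Subgroup (Equiv.Perm (Fin (L + 1))) where
  carrier := {σ | ∀ t, (σ t).val ≤ i0 ↔ t.val ≤ i0}
  one_mem' := fun t => Iff.rfl
  mul_mem' := by
    intro a b ha hb t
    rw [Equiv.Perm.mul_apply, ha, hb]
  inv_mem' := by
    intro a ha t
    have := ha (a⁻¹ t)
    simp at this
    exact this.symm

lemma EE_HH (hM : M ≤ L) (hi : i0 < M) (σ : Equiv.Perm (Fin (L + 1))) (hσ : σ ∈ HH L i0)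
    (v : Fin (L + 1) → Fin L → R) : EE L M i0 P Q hM (fun x => v (σ x))
      = (Equiv.Perm.sign σ : ℤ) • EE L M i0 P Q hM v := by
  let α : Equiv.Perm {t : Fin (L + 1) // t.val ≤ i0} := σ.subtypePerm (fun t => (hσ t))
  let β : Equiv.Perm {t : Fin (L + 1) // ¬ t.val ≤ i0} := σ.subtypePerm (fun t => not_congr (hσ t))
  have h : σ = Equiv.Perm.ofSubtype α * Equiv.Perm.ofSubtype β := by
    ext t
    rw [Equiv.Perm.mul_apply]
    by_cases ht : t.val ≤ i0
    · rw [Equiv.Perm.ofSubtype_apply_of_not_mem β (not_not.2 ht),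
        Equiv.Perm.ofSubtype_apply_of_mem α ht]
      rfl
    · rw [Equiv.Perm.ofSubtype_apply_of_mem β ht]
      have h2 : ¬ (σ t).val ≤ i0 := fun h => ht ((hσ t).1 h)
      change _ = (Equiv.Perm.ofSubtype α (σ t)).val
      rw [Equiv.Perm.ofSubtype_apply_of_not_mem α h2]
  have h1 : (fun x => v (σ x)) = (fun x => (fun y => v (Equiv.Perm.ofSubtype α y))
      (Equiv.Perm.ofSubtype β x)) := by
    funext x
    conv_lhs => rw [h]
    rfl
  rw [h1]
  refine (EE_perm_gt L M i0 P Q hM hi β (fun y => v (Equiv.Perm.ofSubtype α y))).trans ?_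
  rw [EE_perm_le L M i0 P Q hM hi]
  conv_rhs => rw [h]
  rw [Equiv.Perm.sign_mul, Equiv.Perm.sign_ofSubtype, Equiv.Perm.sign_ofSubtype, smul_smul]
  congr 1
  push_cast
  ring

/-- consequence of the Garnir relation: the base term lies in the span of the terms outside `HH`,
as soon as the order of `HH` is invertible. -/
theorem garnir_solve {S : Type} [CommRing S] [Algebra S R] (hM : M ≤ L) (hi : i0 < M)
    (v : Fin (L + 1) → Fin L → R) (hu : IsUnit ((Nat.factorial (L + 1) : ℕ) : S)) :
    EE L M i0 P Q hM v ∈ Submodule.span S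
      {w | ∃ σ : Equiv.Perm (Fin (L + 1)), σ ∉ HH L i0 ∧ w = EE L M i0 P Q hM (fun x => v (σ x))} := by
  classical
  set W := Submodule.span S
      {w | ∃ σ : Equiv.Perm (Fin (L + 1)), σ ∉ HH L i0 ∧ w = EE L M i0 P Q hM (fun x => v (σ x))}
    with hW
  have hg := garnir L M i0 P Q hM hi v
  rw [← Finset.sum_filter_add_sum_filter_not univ (fun σ => σ ∈ HH L i0)] at hg
  have h1 : ∑ σ ∈ univ.filter (fun σ => σ ∈ HH L i0), (Equiv.Perm.sign σ : ℤ) •
      ((lm L i0 P (fun t => v (σ t))).det * (rm L M i0 Q hM (fun t => v (σ t))).det)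
      = (Nat.card (HH L i0)) • EE L M i0 P Q hM v := by
    have h2 : ∀ σ ∈ univ.filter (fun σ => σ ∈ HH L i0), (Equiv.Perm.sign σ : ℤ) •
      ((lm L i0 P (fun t => v (σ t))).det * (rm L M i0 Q hM (fun t => v (σ t))).det)
      = EE L M i0 P Q hM v := by
      intro σ hσ
      have hσ' := (mem_filter.1 hσ).2
      have h3 := EE_HH L M i0 P Q hM hi σ hσ' v
      unfold EE at h3 ⊢
      rw [h3, smul_smul]
      have h4 : ((Equiv.Perm.sign σ : ℤ) * (Equiv.Perm.sign σ : ℤ)) = 1 := by
        rw [← Units.val_mul, Int.units_mul_self]; rfl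
      rw [h4, one_smul]
    rw [sum_congr rfl h2, sum_const]
    congr 1
    rw [Nat.card_eq_fintype_card, Fintype.card_subtype]
  rw [h1] at hg
  have h5 : (Nat.card (HH L i0)) • EE L M i0 P Q hM v ∈ W := by
    rw [eq_neg_of_add_eq_zero_left hg]
    apply Submodule.neg_mem
    apply Submodule.sum_mem
    intro σ hσ
    have h6 : (lm L i0 P (fun t => v (σ t))).det * (rm L M i0 Q hM (fun t => v (σ t))).det ∈ W :=
      Submodule.subset_span ⟨σ, (mem_filter.1 hσ).2, rfl⟩
    rcases Int.units_eq_one_or (Equiv.Perm.sign σ) with h | h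
    · rw [h]; simpa using h6
    · rw [h]; simpa using h6
  have h7 : IsUnit ((Nat.card (HH L i0) : ℕ) : S) := by
    have hd : Nat.card (HH L i0) ∣ Nat.factorial (L + 1) := by
      have := Subgroup.card_subgroup_dvd_card (HH L i0)
      rwa [Nat.card_perm, Nat.card_fin] at this
    obtain ⟨m, hm⟩ := hd
    rw [hm, Nat.cast_mul] at hu
    exact isUnit_of_mul_isUnit_left hu
  obtain ⟨u, hu'⟩ := h7
  have h8 : EE L M i0 P Q hM v = (↑u⁻¹ : S) • ((Nat.card (HH L i0)) • EE L M i0 P Q hM v) := by
    rw [← Nat.cast_smul_eq_nsmul S, smul_smul, ← hu', Units.inv_mul, one_smul]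
  rw [h8]
  exact W.smul_mem _ h5

end GarnirH

end Pool.Agent.H268R3.Soc
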