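import Pool.Agent.H268R3.Soc.Transfer

set_option autoImplicit false

open MvPolynomial Finset

namespace Pool.Agent.H268R3.Soc

variable (F : Type) [Field F] [Fintype F] (n : ℕ)

theorem finrank_recursion (m : ℕ) :
    (Module.finrank F (InvS F (n + 1) m) : ℤ)
      = (if Fintype.card F ∣ m then (Module.finrank F (InvS F n (m / Fintype.card F)) : ℤ) else 0)
        + Module.finrank F (InvE F (n + 1) (Fintype.card F ^ (n + 1) - 1) m) := by
  have h1 := LinearMap.finrank_range_add_finrank_ker
    ((rho (F := F) (n := n)).toLinearMap.domRestrict (InvS F (n + 1) m))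
  rw [LinearMap.range_domRestrict, map_rho] at h1
  have h2 : Module.finrank F (LinearMap.ker ((rho (F := F) (n := n)).toLinearMap.domRestrict
      (InvS F (n + 1) m))) = Module.finrank F (InvE F (n + 1) (Fintype.card F ^ (n + 1) - 1) m) := by
    rw [LinearMap.ker_domRestrict, ← Submodule.finrank_map_subtype_eq, Submodule.map_comap_subtype,
      ker_eq]
    have hinj : Function.Injective
        (LinearMap.mulRight F ((LL F (n + 1)) ^ (Fintype.card F - 1))) := by
      intro a b hab
      exact mul_right_cancel₀ (pow_ne_zero _ LL_ne_zero) hab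
    exact (Submodule.equivMapOfInjective _ hinj _).finrank_eq.symm
  rw [h2] at h1
  rw [← h1]
  push_cast
  congr 1
  by_cases hd : Fintype.card F ∣ m
  · rw [if_pos hd, if_pos hd]
    have hinj : Function.Injective (expand (Fintype.card F) (R := F) (σ := Fin n)).toLinearMap :=
      expand_injective Fintype.card_pos
    rw [← (Submodule.equivMapOfInjective _ hinj (InvS F n (m / Fintype.card F))).finrank_eq]
  · rw [if_neg hd, if_neg hd, finrank_bot]; rfl

theorem HS_recursion :
    HS F (n + 1) = PowerSeries.expand (Fintype.card F) Fintype.card_ne_zero (HS F n)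
      + PowerSeries.X ^ (Fintype.card F ^ (n + 1) - 1) * HS F (n + 1) := by
  ext m
  rw [map_add, PowerSeries.coeff_expand, ← finrank_InvE]
  conv_lhs => rw [HS, PowerSeries.coeff_mk]
  rw [finrank_recursion]
  simp only [HS, PowerSeries.coeff_mk]

theorem HS_zero : HS F 0 = 1 := by
  ext m
  rw [HS, PowerSeries.coeff_mk, PowerSeries.coeff_one]
  by_cases hm : m = 0
  · rw [if_pos hm, hm]
    have h1 : InvS F 0 0 = Submodule.span F {(1 : MvPolynomial (Fin 0) F)} := by
      ext f
      rw [Submodule.mem_span_singleton]
      constructor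
      · rintro ⟨h1, _⟩
        refine ⟨coeff 0 f, ?_⟩
        rw [smul_eq_C_mul, mul_one]
        have := homogeneousComponent_eq_self h1
        rw [← this]; simp
      · rintro ⟨a, rfl⟩
        refine ⟨?_, fun g _ => by rw [map_smul, map_one]⟩
        rw [smul_eq_C_mul, mul_one]
        exact isHomogeneous_C _ _
    rw [h1, finrank_span_singleton one_ne_zero]
    rfl
  · rw [if_neg hm]
    have h1 : InvS F 0 m = ⊥ := by
      rw [eq_bot_iff]
      rintro f ⟨h1, _⟩
      rw [Submodule.mem_bot]
      by_contra h0
      exact hm ((h1.inj_right (isHomogeneous_of_isEmpty _ _ f) h0))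
    rw [h1, finrank_bot]
    rfl

theorem HS_eq : HS F n * ∏ i ∈ range n,
    (1 - PowerSeries.X ^ (Fintype.card F ^ n - Fintype.card F ^ i)) = 1 := by
  induction n with
  | zero => rw [HS_zero]; simp
  | succ n ih =>
    have h1 := HS_recursion F n
    have h2 : HS F (n + 1) * (1 - PowerSeries.X ^ (Fintype.card F ^ (n + 1) - 1))
        = PowerSeries.expand (Fintype.card F) Fintype.card_ne_zero (HS F n) := by
      rw [mul_sub, mul_one, sub_eq_iff_eq_add, mul_comm (HS F (n + 1))]
      exact h1
    rw [prod_range_succ', pow_zero, mul_comm (∏ k ∈ range n, _), ← mul_assoc, h2]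
    have h3 := congrArg (PowerSeries.expand (Fintype.card F) Fintype.card_ne_zero) ih
    rw [map_mul, map_one, map_prod] at h3
    refine Eq.trans ?_ h3
    congr 1
    apply prod_congr rfl
    intro i _
    rw [map_sub, map_one, map_pow, PowerSeries.expand_X, ← pow_mul, Nat.mul_sub, pow_succ', pow_succ']

end Pool.Agent.H268R3.Soc
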