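import Pool.Agent.H268R3.Soc.Moore

set_option autoImplicit false

open MvPolynomial Finset

namespace Pool.Agent.H268R3.Soc

section hom
variable {F : Type} [Field F] {n : ℕ}

/-- homogenising substitution -/
noncomputable def psi : MvPolynomial (Fin n) F →ₐ[F] Polynomial (MvPolynomial (Fin n) F) :=
  aeval (fun j => Polynomial.X * Polynomial.C (X j))

lemma psi_X (j : Fin n) : psi (X j : MvPolynomial (Fin n) F) = Polynomial.X * Polynomial.C (X j) := by
  unfold psi; rw [aeval_X]

lemma psi_monomial (m : Fin n →₀ ℕ) (a : F) :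
    psi (monomial m a) = Polynomial.X ^ m.degree * Polynomial.C (monomial m a) := by
  induction m using Finsupp.induction with
  | zero =>
    rw [map_zero, pow_zero, one_mul]
    unfold psi
    rw [← C_apply, aeval_C]
    rfl
  | single_add j e m hj he ih =>
    rw [add_comm, monomial_add_single, map_mul, ih, map_pow, psi_X, map_add, Finsupp.degree_single,
      map_mul, map_pow, mul_pow]
    ring

lemma psi_coeff (f : MvPolynomial (Fin n) F) (i : ℕ) :
    (psi f).coeff i = homogeneousComponent i f := by
  induction f using MvPolynomial.induction_on' with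
  | monomial m a =>
    rw [psi_monomial, Polynomial.coeff_X_pow_mul', Polynomial.coeff_C,
      homogeneousComponent_of_mem (isHomogeneous_monomial a rfl)]
    by_cases h : i = m.degree
    · simp [h]
    · rw [if_neg h]
      by_cases h2 : m.degree ≤ i
      · rw [if_pos h2, if_neg (by omega)]
      · rw [if_neg h2]
  | add p q hp hq => rw [map_add, Polynomial.coeff_add, hp, hq, map_add]

lemma homog_of_psi (f : MvPolynomial (Fin n) F) (e : ℕ)
    (h : psi f = Polynomial.X ^ e * Polynomial.C f) : f.IsHomogeneous e := by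
  have h1 := psi_coeff f e
  rw [h, Polynomial.coeff_X_pow_mul', if_pos (le_refl _), Nat.sub_self, Polynomial.coeff_C_zero] at h1
  rw [h1]
  exact homogeneousComponent_isHomogeneous _ _

lemma psi_of_homog (f : MvPolynomial (Fin n) F) (e : ℕ) (h : f.IsHomogeneous e) :
    psi f = Polynomial.X ^ e * Polynomial.C f := by
  ext i : 1
  rw [psi_coeff, Polynomial.coeff_X_pow_mul', Polynomial.coeff_C, homogeneousComponent_of_mem h]
  by_cases h1 : i = e
  · simp [h1]
  · rw [if_neg h1]
    by_cases h2 : e ≤ i
    · rw [if_pos h2, if_neg (by omega)]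
    · rw [if_neg h2]

lemma hc_mul (f g : MvPolynomial (Fin n) F) (e m : ℕ) (h : g.IsHomogeneous e) :
    homogeneousComponent m (f * g) = if e ≤ m then homogeneousComponent (m - e) f * g else 0 := by
  rw [← psi_coeff, map_mul, psi_of_homog g e h, ← psi_coeff,
    show psi f * (Polynomial.X ^ e * Polynomial.C g)
      = (psi f * Polynomial.C g) * Polynomial.X ^ e by ring, Polynomial.coeff_mul_X_pow']
  by_cases h1 : e ≤ m
  · rw [if_pos h1, if_pos h1, Polynomial.coeff_mul_C]
  · rw [if_neg h1, if_neg h1]

lemma act_isHomogeneous (g : Matrix (Fin n) (Fin n) F) (f : MvPolynomial (Fin n) F) (m : ℕ)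
    (h : f.IsHomogeneous m) : (act g f).IsHomogeneous m := by
  have := IsHomogeneous.aeval h (fun j => lf (fun i => g i j)) (fun j => lf_homog _)
  rwa [one_mul] at this

lemma act_hc (g : Matrix (Fin n) (Fin n) F) (f : MvPolynomial (Fin n) F) (m : ℕ) :
    act g (homogeneousComponent m f) = homogeneousComponent m (act g f) := by
  have h1 : f = ∑ i ∈ range (f.totalDegree + 1 + m + 1), homogeneousComponent i f := by
    conv_lhs => rw [← sum_homogeneousComponent f]
    apply sum_subset
    · intro x hx
      rw [mem_range] at hx ⊢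
      omega
    · intro x _ hx
      apply homogeneousComponent_eq_zero
      rw [mem_range] at hx
      omega
  have h2 : act g f = ∑ i ∈ range (f.totalDegree + 1 + m + 1), act g (homogeneousComponent i f) := by
    conv_lhs => rw [h1]
    rw [map_sum]
  rw [h2, map_sum, Finset.sum_eq_single_of_mem m (mem_range.2 (by omega))]
  · rw [homogeneousComponent_eq_self (act_isHomogeneous _ _ _ (homogeneousComponent_isHomogeneous _ _))]
  · intro i _ hi
    rw [homogeneousComponent_of_mem
      (act_isHomogeneous _ _ _ (homogeneousComponent_isHomogeneous i f)), if_neg (fun h => hi h.symm)]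

lemma act_diag_coeff (t : Fin n → F) (f : MvPolynomial (Fin n) F) (m : Fin n →₀ ℕ) :
    coeff m (act (Matrix.diagonal t) f) = (∏ i, t i ^ m i) * coeff m f := by
  classical
  have hX : ∀ j, act (Matrix.diagonal t) (X j) = C (t j) * X j := by
    intro j
    rw [act_X, lf, Finset.sum_eq_single_of_mem j (mem_univ _)]
    · rw [Matrix.diagonal_apply_eq]
    · intro i _ hi
      rw [Matrix.diagonal_apply_ne _ hi, C_0, zero_mul]
  have hmon : ∀ (m : Fin n →₀ ℕ) (a : F), act (Matrix.diagonal t) (monomial m a)
      = C (∏ i, t i ^ m i) * monomial m a := by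
    intro m a
    rw [monomial_eq, map_mul, act_C, Finsupp.prod_fintype _ _ (fun i => by rw [pow_zero]), map_prod]
    simp only [map_pow, hX, mul_pow]
    rw [prod_mul_distrib, map_prod]
    simp only [map_pow]
    ring
  induction f using MvPolynomial.induction_on' with
  | monomial m' a =>
    rw [hmon, coeff_C_mul, coeff_monomial]
    by_cases h : m' = m
    · rw [if_pos h, h]
    · rw [if_neg h, mul_zero, mul_zero]
  | add p q hp hq => rw [map_add, coeff_add, coeff_add, hp, hq, mul_add]

lemma X_pow_dvd (i : Fin n) (e : ℕ) (f : MvPolynomial (Fin n) F)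
    (h : ∀ m, coeff m f ≠ 0 → e ≤ m i) : X i ^ e ∣ f := by
  rw [X_pow_eq_monomial, monomial_one_dvd_iff_modMonomial_eq_zero]
  ext m
  rw [coeff_zero]
  by_cases h1 : Finsupp.single i e ≤ m
  · exact coeff_modMonomial_of_le _ h1
  · rw [coeff_modMonomial_of_not_le _ h1]
    by_contra h2
    apply h1
    rw [Finsupp.single_le_iff]
    exact h m h2

lemma exp_ge [Fintype F] (i0 : Fin n) (e : ℕ) (he : e + 1 < Fintype.card F)
    (f : MvPolynomial (Fin n) F)
    (h : ∀ a : F, a ≠ 0 → act (Matrix.diagonal (Function.update 1 i0 a)) f = C (a ^ e) * f) :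
    X i0 ^ e ∣ f := by
  classical
  apply X_pow_dvd
  intro m hm
  obtain ⟨u, hu⟩ := IsCyclic.exists_generator (α := Fˣ)
  have h1 := congrArg (coeff m) (h u.val u.ne_zero)
  rw [act_diag_coeff, coeff_C_mul] at h1
  have h2 := mul_right_cancel₀ hm h1
  have h3 : ∏ i, (Function.update 1 i0 (u : F) : Fin n → F) i ^ m i = (u : F) ^ m i0 := by
    rw [Finset.prod_eq_single_of_mem i0 (mem_univ _)]
    · rw [Function.update_self]
    · intro j _ hj
      rw [Function.update_of_ne hj, Pi.one_apply, one_pow]
  rw [h3] at h2
  have h4 : u ^ m i0 = u ^ e := by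
    apply Units.ext
    rw [Units.val_pow_eq_pow_val, Units.val_pow_eq_pow_val, h2]
  rw [pow_eq_pow_iff_modEq, orderOf_eq_card_of_forall_mem_zpowers hu, Nat.card_eq_fintype_card,
    Fintype.card_units] at h4
  have h5 : m i0 % (Fintype.card F - 1) = e % (Fintype.card F - 1) := h4
  rw [Nat.mod_eq_of_lt (show e < Fintype.card F - 1 by omega)] at h5
  rw [← h5]
  exact Nat.mod_le _ _

end hom

end Pool.Agent.H268R3.Soc
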