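import Pool.Agent.H268R3.Soc.Span

set_option autoImplicit false

open MvPolynomial Finset

namespace Pool.Agent.H268R3.Soc

variable {A : Type} [CommRing A] {n : ℕ}

/-- weight of a monomial -/
noncomputable def om (m : (ℕ × Fin n) →₀ ℕ) : ℕ := m.sum (fun x e => e * (x.1 * x.2.val))

lemma om_add (m m' : (ℕ × Fin n) →₀ ℕ) : om (m + m') = om m + om m' := by
  unfold om
  exact Finsupp.sum_add_index' (fun _ => by simp) (fun _ _ _ => by ring)

lemma om_zero : om (0 : (ℕ × Fin n) →₀ ℕ) = 0 := by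
  unfold om; exact Finsupp.sum_zero_index

lemma om_single (x : ℕ × Fin n) : om (Finsupp.single x 1) = x.1 * x.2.val := by
  unfold om
  rw [Finsupp.sum_single_index] <;> simp

lemma om_sum {ι : Type} (s : Finset ι) (f : ι → ((ℕ × Fin n) →₀ ℕ)) :
    om (∑ i ∈ s, f i) = ∑ i ∈ s, om (f i) := by
  classical
  induction s using Finset.induction_on with
  | empty => simp [om_zero]
  | insert a s ha ih => rw [sum_insert ha, sum_insert ha, om_add, ih]

/-- `f` has top form the monomial `m` -/
def TF (f : ZR A n) (m : (ℕ × Fin n) →₀ ℕ) : Prop :=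
  coeff m f = 1 ∧ ∀ m', coeff m' f ≠ 0 → m' = m ∨ om m' < om m

lemma TF_one : TF (1 : ZR A n) 0 := by
  refine ⟨by simp, ?_⟩
  intro m' hm'
  left
  by_contra h
  rw [coeff_one, if_neg (fun h' => h h'.symm)] at hm'
  exact hm' rfl

lemma TF_mul {f g : ZR A n} {m m' : (ℕ × Fin n) →₀ ℕ} (hf : TF f m) (hg : TF g m') :
    TF (f * g) (m + m') := by
  classical
  have key : ∀ a b, coeff a f * coeff b g ≠ 0 → (a = m ∧ b = m') ∨ om (a + b) < om (m + m') := by
    intro a b hab
    have ha : coeff a f ≠ 0 := fun h => hab (by rw [h, zero_mul])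
    have hb : coeff b g ≠ 0 := fun h => hab (by rw [h, mul_zero])
    rw [om_add, om_add]
    rcases hf.2 a ha with h1 | h1 <;> rcases hg.2 b hb with h2 | h2
    · left; exact ⟨h1, h2⟩
    · right; rw [h1]; omega
    · right; rw [h2]; omega
    · right; omega
  constructor
  · rw [coeff_mul]
    rw [Finset.sum_eq_single_of_mem (m, m') (by simp [HasAntidiagonal.mem_antidiagonal])]
    · rw [hf.1, hg.1, mul_one]
    · rintro ⟨a, b⟩ hab hne
      by_contra h
      rw [HasAntidiagonal.mem_antidiagonal] at hab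
      rcases key a b h with h1 | h1
      · exact hne (by rw [h1.1, h1.2])
      · simp only at hab
        rw [hab] at h1
        exact lt_irrefl _ h1
  · intro k hk
    rw [coeff_mul] at hk
    obtain ⟨⟨a, b⟩, hab, hne⟩ := exists_ne_zero_of_sum_ne_zero hk
    rw [HasAntidiagonal.mem_antidiagonal] at hab
    simp only at hab
    rcases key a b hne with h1 | h1
    · left; rw [← hab, h1.1, h1.2]
    · right; rw [← hab]; exact h1

lemma TF_prod {ι : Type} (s : Finset ι) (f : ι → ZR A n) (m : ι → ((ℕ × Fin n) →₀ ℕ))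
    (h : ∀ i ∈ s, TF (f i) (m i)) : TF (∏ i ∈ s, f i) (∑ i ∈ s, m i) := by
  classical
  induction s using Finset.induction_on with
  | empty => simpa using TF_one
  | insert a s ha ih =>
    rw [prod_insert ha, sum_insert ha]
    exact TF_mul (h a (mem_insert_self _ _)) (ih (fun i hi => h i (mem_insert_of_mem hi)))

lemma perm_eq_one_of_monotone {l : ℕ} (σ : Equiv.Perm (Fin l)) (h : Monotone σ) : σ = 1 := by
  have hs : StrictMono σ := h.strictMono_of_injective σ.injective
  have h1 : Set.range σ = Set.range (id : Fin l → Fin l) := by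
    rw [Set.range_id, σ.surjective.range_eq]
  have h2 := (StrictMono.range_inj hs strictMono_id).1 h1
  ext x
  rw [h2]; rfl

lemma rearr {l : ℕ} (κ : Fin l → ℕ) (hκ : StrictMono κ) (σ : Equiv.Perm (Fin l)) (hσ : σ ≠ 1) :
    ∑ b : Fin l, (σ b).val * κ b < ∑ b : Fin l, b.val * κ b := by
  have hmv : Monovary (fun b : Fin l => (b.val : ℤ)) (fun b => (κ b : ℤ)) := by
    intro i j hij
    have h0 : (κ i : ℤ) < κ j := hij
    have h1 : κ i < κ j := by exact_mod_cast h0
    have h2 := hκ.lt_iff_lt.1 h1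
    show ((i.val : ℕ) : ℤ) ≤ j.val
    exact_mod_cast (le_of_lt (Fin.lt_def.1 h2))
  have h1 := (hmv.sum_comp_perm_mul_lt_sum_mul_iff (σ := σ)).2 ?_
  · exact_mod_cast h1
  · intro h2
    apply hσ
    apply perm_eq_one_of_monotone
    intro i j hij
    rcases eq_or_lt_of_le hij with h | h
    · rw [h]
    · have h3 : (κ i : ℤ) < κ j := by exact_mod_cast (hκ h)
      have h4 := h2 h3
      simp only [Function.comp] at h4
      exact Fin.le_def.2 (by exact_mod_cast h4)

/-- diagonal monomial of a column -/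
noncomputable def cmon (l : ℕ) (κ : ℕ → Fin n) : (ℕ × Fin n) →₀ ℕ :=
  ∑ b : Fin l, Finsupp.single (b.val, κ b.val) 1

lemma TF_cdet (l : ℕ) (κ : ℕ → Fin n) (h : ∀ b b', b < b' → b' < l → κ b < κ b') :
    TF (cdet A l κ) (cmon l κ) := by
  classical
  have hmono : StrictMono (fun b : Fin l => (κ b.val).val) := by
    intro b b' hbb
    exact Fin.lt_def.1 (h _ _ (Fin.lt_def.1 hbb) b'.isLt)
  let mm : Equiv.Perm (Fin l) → ((ℕ × Fin n) →₀ ℕ) := fun σ =>
    ∑ b : Fin l, Finsupp.single ((σ b).val, κ b.val) 1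
  have hdet : cdet A l κ = ∑ σ : Equiv.Perm (Fin l), monomial (mm σ) ((Equiv.Perm.sign σ : ℤ) : A) := by
    unfold cdet
    rw [Matrix.det_apply']
    apply sum_congr rfl
    intro σ _
    simp only [Matrix.of_apply, mm]
    have : ∀ s : Finset (Fin l), ∏ b ∈ s, (X ((σ b).val, κ b.val) : ZR A n)
        = monomial (∑ b ∈ s, Finsupp.single ((σ b).val, κ b.val) 1) 1 := by
      intro s
      induction s using Finset.induction_on with
      | empty => simp
      | insert a s ha ih => rw [prod_insert ha, sum_insert ha, ih, X, monomial_mul, one_mul]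
    rw [this univ]
    rw [← map_intCast (C : A →+* ZR A n), C_mul_monomial, mul_one]
  have hom : ∀ σ, om (mm σ) = ∑ b : Fin l, (σ b).val * (κ b.val).val := by
    intro σ
    simp only [mm]
    rw [om_sum]
    simp only [om_single]
  have h1 : mm 1 = cmon l κ := rfl
  have hlt : ∀ σ, σ ≠ 1 → om (mm σ) < om (cmon l κ) := by
    intro σ hσ
    rw [← h1, hom, hom]
    exact rearr _ hmono σ hσ
  constructor
  · rw [hdet, coeff_sum, Finset.sum_eq_single_of_mem 1 (mem_univ _)]
    · rw [h1, coeff_monomial, if_pos rfl]; simp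
    · intro σ _ hσ
      rw [coeff_monomial, if_neg]
      intro he
      have := hlt σ hσ
      rw [he] at this
      exact lt_irrefl _ this
  · intro m' hm'
    rw [hdet, coeff_sum] at hm'
    obtain ⟨σ, _, hne⟩ := exists_ne_zero_of_sum_ne_zero hm'
    rw [coeff_monomial] at hne
    have he : mm σ = m' := by
      by_contra he
      rw [if_neg he] at hne
      exact hne rfl
    by_cases hσ : σ = 1
    · left; rw [← he, hσ, h1]
    · right; rw [← he]; exact hlt σ hσ

/-- diagonal monomial of a filling -/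
noncomputable def tmon (c : ℕ) (l : ℕ → ℕ) (T : ℕ → ℕ → Fin n) : (ℕ × Fin n) →₀ ℕ :=
  ∑ j ∈ range c, cmon (l j) (fun b => T b j)

lemma TF_bdet (c : ℕ) (l : ℕ → ℕ) (T : ℕ → ℕ → Fin n) (hT : IsSS c l T) :
    TF (bdet A c l T) (tmon c l T) := by
  apply TF_prod
  intro j hj
  exact TF_cdet _ _ (hT.1 j (mem_range.1 hj))

lemma tmon_apply (c : ℕ) (l : ℕ → ℕ) (T : ℕ → ℕ → Fin n) (b : ℕ) (i : Fin n) :
    tmon c l T (b, i) = ((range c).filter (fun j => b < l j ∧ T b j = i)).card := by
  classical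
  unfold tmon
  rw [Finsupp.finsetSum_apply, card_filter]
  apply sum_congr rfl
  intro j _
  unfold cmon
  rw [Finsupp.finsetSum_apply]
  by_cases h : b < l j ∧ T b j = i
  · rw [if_pos h, Finset.sum_eq_single_of_mem (⟨b, h.1⟩ : Fin (l j)) (mem_univ _)]
    · simp [h.2]
    · intro b' _ hb'
      rw [Finsupp.single_apply, if_neg]
      intro he
      apply hb'
      exact Fin.ext (congrArg Prod.fst he)
  · rw [if_neg h]
    apply sum_eq_zero
    intro b' _
    rw [Finsupp.single_apply, if_neg]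
    intro he
    apply h
    have e1 : b'.val = b := congrArg Prod.fst he
    have e2 : T b'.val j = i := congrArg Prod.snd he
    rw [e1] at e2
    exact ⟨by rw [← e1]; exact b'.isLt, e2⟩

lemma count_le (c : ℕ) (l : ℕ → ℕ) (T : ℕ → ℕ → Fin n) (b : ℕ) (v : Fin n) :
    ∑ i ∈ univ.filter (fun i => i ≤ v), tmon c l T (b, i)
      = ((range c).filter (fun j => b < l j ∧ T b j ≤ v)).card := by
  classical
  simp only [tmon_apply]
  rw [← card_biUnion]
  · congr 1
    ext j
    simp only [mem_biUnion, mem_filter, mem_univ, true_and, mem_range]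
    constructor
    · rintro ⟨i, hi, hj, hb, he⟩
      exact ⟨hj, hb, he ▸ hi⟩
    · rintro ⟨hj, hb, he⟩
      exact ⟨_, he, hj, hb, rfl⟩
  · intro i _ i' _ hne
    apply disjoint_left.2
    intro j hj hj'
    apply hne
    rw [← (mem_filter.1 hj).2.2, ← (mem_filter.1 hj').2.2]

lemma tmon_inj_aux (c : ℕ) (l : ℕ → ℕ) (hl : ∀ j, j + 1 < c → l (j + 1) ≤ l j)
    (T T' : ℕ → ℕ → Fin n) (hT : IsSS c l T) (hT' : IsSS c l T')
    (h : tmon c l T = tmon c l T') (j : ℕ) (hj : j < c) (b : ℕ) (hb : b < l j) :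
    T' b j ≤ T b j := by
  classical
  by_contra hcon
  rw [not_le] at hcon
  have hlmono : ∀ j1 j2, j1 ≤ j2 → j2 < c → l j2 ≤ l j1 := by
    intro j1 j2 h12
    induction h12 with
    | refl => intro _; exact le_refl _
    | step h12 ih => intro h2; exact le_trans (hl _ h2) (ih (by omega))
  have hrow : ∀ (T : ℕ → ℕ → Fin n), IsSS c l T → ∀ j1 j2, j1 ≤ j2 → j2 < c → b < l j2 →
      T b j1 ≤ T b j2 := by
    intro T hT j1 j2 h12
    induction h12 with
    | refl => intro _ _; exact le_refl _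
    | step h12 ih =>
      intro h2 hb2
      refine le_trans (ih (by omega) ?_) (hT.2 _ h2 b hb2)
      exact lt_of_lt_of_le hb2 (hl _ h2)
  have h1 := count_le c l T b (T b j)
  have h2 := count_le c l T' b (T b j)
  rw [h, h2] at h1
  have h3 : range (j + 1) ⊆ (range c).filter (fun j' => b < l j' ∧ T b j' ≤ T b j) := by
    intro j' hj'
    have hj'' : j' ≤ j := by have := mem_range.1 hj'; omega
    rw [mem_filter, mem_range]
    exact ⟨by omega, lt_of_lt_of_le hb (hlmono j' j hj'' hj), hrow T hT j' j hj'' hj hb⟩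
  have h4 : (range c).filter (fun j' => b < l j' ∧ T' b j' ≤ T b j) ⊆ range j := by
    intro j' hj'
    rw [mem_filter, mem_range] at hj'
    rw [mem_range]
    by_contra hge
    have : T' b j ≤ T' b j' := hrow T' hT' j j' (by omega) hj'.1 hj'.2.1
    exact absurd (lt_of_lt_of_le hcon this) (not_lt.2 hj'.2.2)
  have h5 := card_le_card h3
  have h6 := card_le_card h4
  rw [card_range] at h5 h6
  omega

lemma tmon_inj (c : ℕ) (l : ℕ → ℕ) (hl : ∀ j, j + 1 < c → l (j + 1) ≤ l j)
    (T T' : ℕ → ℕ → Fin n) (hT : IsSS c l T) (hT' : IsSS c l T')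
    (h : tmon c l T = tmon c l T') (j : ℕ) (hj : j < c) (b : ℕ) (hb : b < l j) :
    T b j = T' b j :=
  le_antisymm (tmon_inj_aux c l hl T' T hT' hT h.symm j hj b hb)
    (tmon_inj_aux c l hl T T' hT hT' h j hj b hb)

theorem bdet_linearIndependent (c : ℕ) (l : ℕ → ℕ) {ι : Type} (T : ι → ℕ → ℕ → Fin n)
    (hT : ∀ i, IsSS c l (T i)) (hinj : ∀ i i', tmon c l (T i) = tmon c l (T i') → i = i') :
    LinearIndependent A (fun i => bdet A c l (T i)) := by
  classical
  rw [linearIndependent_iff']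
  intro s a hsum
  by_contra hcon
  push Not at hcon
  obtain ⟨i1, hi1, ha1⟩ := hcon
  obtain ⟨i0, hi0, hmax⟩ := exists_max_image (s.filter (fun i => a i ≠ 0))
    (fun i => om (tmon c l (T i))) ⟨i1, mem_filter.2 ⟨hi1, ha1⟩⟩
  have hi0s := (mem_filter.1 hi0).1
  have ha0 := (mem_filter.1 hi0).2
  have hc := congrArg (coeff (tmon c l (T i0))) hsum
  rw [coeff_sum, coeff_zero, Finset.sum_eq_single_of_mem i0 hi0s] at hc
  · rw [coeff_smul, (TF_bdet c l (T i0) (hT i0)).1, smul_eq_mul, mul_one] at hc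
    exact ha0 hc
  · intro i hi hne
    rw [coeff_smul, smul_eq_mul]
    by_cases hai : a i = 0
    · rw [hai, zero_mul]
    · have : coeff (tmon c l (T i0)) (bdet A c l (T i)) = 0 := by
        by_contra h
        rcases (TF_bdet c l (T i) (hT i)).2 _ h with h1 | h1
        · exact hne (hinj _ _ h1).symm
        · have := hmax i (mem_filter.2 ⟨hi, hai⟩)
          omega
      rw [this, mul_zero]

end Pool.Agent.H268R3.Soc
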