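import Mathlib

set_option autoImplicit false

open MvPolynomial Finset

namespace Pool.Agent.H268R3.Soc

section act
variable {F : Type} [Field F] {n : ℕ}

/-- the linear form with coefficients `v` -/
noncomputable def lf (v : Fin n → F) : MvPolynomial (Fin n) F := ∑ i, C (v i) * X i

/-- the substitution `X_j ↦ ∑ i, g i j X_i` -/
noncomputable def act (g : Matrix (Fin n) (Fin n) F) :
    MvPolynomial (Fin n) F →ₐ[F] MvPolynomial (Fin n) F :=
  aeval (fun j => lf (fun i => g i j))

lemma act_X (g : Matrix (Fin n) (Fin n) F) (j : Fin n) : act g (X j) = lf (fun i => g i j) := by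
  unfold act; rw [aeval_X]

lemma act_C (g : Matrix (Fin n) (Fin n) F) (c : F) : act g (C c) = C c := by
  unfold act; rw [aeval_C]; rfl

lemma act_lf (g : Matrix (Fin n) (Fin n) F) (v : Fin n → F) : act g (lf v) = lf (g.mulVec v) := by
  rw [lf, map_sum]
  simp only [map_mul, act_X, act_C, lf, Matrix.mulVec, dotProduct, map_sum, map_mul,
    mul_sum, sum_mul]
  rw [sum_comm]
  apply sum_congr rfl; intro j _
  apply sum_congr rfl; intro k _
  ring

lemma act_mul (g h : Matrix (Fin n) (Fin n) F) (f : MvPolynomial (Fin n) F) :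
    act (g * h) f = act g (act h f) := by
  have : act (g * h) = (act g).comp (act h) := by
    apply algHom_ext
    intro j
    rw [AlgHom.comp_apply, act_X, act_X, act_lf]
    rfl
  rw [this, AlgHom.comp_apply]

lemma lf_single (i : Fin n) : lf (Pi.single i (1 : F)) = X i := by
  classical
  unfold lf
  rw [Finset.sum_eq_single_of_mem i (mem_univ _)]
  · simp
  · intro j _ hj
    simp [hj]

lemma act_one (f : MvPolynomial (Fin n) F) : act 1 f = f := by
  have : act (1 : Matrix (Fin n) (Fin n) F) = AlgHom.id F _ := by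
    apply algHom_ext
    intro j
    rw [act_X, AlgHom.id_apply, ← lf_single j]
    congr 1
    ext i
    rw [Matrix.one_apply, Pi.single_apply]
  rw [this, AlgHom.id_apply]

lemma lf_add (v w : Fin n → F) : lf (v + w) = lf v + lf w := by
  unfold lf
  rw [← sum_add_distrib]
  apply sum_congr rfl; intro i _
  rw [Pi.add_apply, map_add, add_mul]

lemma lf_smul (a : F) (v : Fin n → F) : lf (a • v) = C a * lf v := by
  unfold lf
  rw [mul_sum]
  apply sum_congr rfl; intro i _
  rw [Pi.smul_apply, smul_eq_mul, map_mul, mul_assoc]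

lemma lf_zero : lf (0 : Fin n → F) = 0 := by
  unfold lf; simp

lemma lf_homog (v : Fin n → F) : (lf v).IsHomogeneous 1 := by
  unfold lf
  apply IsHomogeneous.sum
  intro i _
  exact isHomogeneous_C_mul_X _ _

lemma coeff_lf (v : Fin n → F) (i : Fin n) : coeff (Finsupp.single i 1) (lf v) = v i := by
  classical
  unfold lf
  rw [coeff_sum, Finset.sum_eq_single_of_mem i (mem_univ _)]
  · simp
  · intro j _ hj
    rw [coeff_C_mul, coeff_X', if_neg, mul_zero]
    rwa [Finsupp.single_left_inj Nat.one_ne_zero]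

lemma lf_ne_zero (v : Fin n → F) (hv : v ≠ 0) : lf v ≠ 0 := by
  intro h
  apply hv
  ext i
  rw [← coeff_lf v i, h, coeff_zero, Pi.zero_apply]

lemma lf_inj (v w : Fin n → F) (h : lf v = lf w) : v = w := by
  ext i
  rw [← coeff_lf v i, h, coeff_lf]

lemma lf_irreducible (v : Fin n → F) (hv : v ≠ 0) : Irreducible (lf v) := by
  apply irreducible_of_totalDegree_eq_one
  · exact (lf_homog v).totalDegree (lf_ne_zero v hv)
  · intro x hx
    obtain ⟨i, hi⟩ := Function.ne_iff.1 hv
    have h1 := hx (Finsupp.single i 1)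
    rw [coeff_lf] at h1
    have : x ≠ 0 := by
      rintro rfl
      exact hi (zero_dvd_iff.1 h1)
    exact this.isUnit

lemma lf_dvd (v w : Fin n → F) (hw : w ≠ 0) (h : lf v ∣ lf w) : ∃ c : F, w = c • v := by
  obtain ⟨u, hu⟩ := h
  have hw0 := lf_ne_zero w hw
  have hv0 : lf v ≠ 0 := by
    rintro h; rw [h, zero_mul] at hu; exact hw0 hu
  have hu0 : u ≠ 0 := by
    rintro rfl; rw [mul_zero] at hu; exact hw0 hu
  have h1 := congrArg totalDegree hu
  rw [totalDegree_mul_of_isDomain hv0 hu0, (lf_homog v).totalDegree hv0,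
    (lf_homog w).totalDegree hw0] at h1
  have h2 : u.totalDegree = 0 := by omega
  rw [totalDegree_eq_zero_iff_eq_C] at h2
  refine ⟨coeff 0 u, ?_⟩
  apply lf_inj
  rw [lf_smul, ← h2, hu, mul_comm]

/-- transitivity on nonzero vectors -/
lemma exists_gl (i0 : Fin n) (v : Fin n → F) (hv : v ≠ 0) :
    ∃ g : Matrix (Fin n) (Fin n) F, IsUnit g.det ∧ g.mulVec (Pi.single i0 1) = v := by
  classical
  obtain ⟨i, hi⟩ := Function.ne_iff.1 hv
  refine ⟨(1 : Matrix (Fin n) (Fin n) F).updateCol i v * (Equiv.swap i0 i).toPEquiv.toMatrix, ?_, ?_⟩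
  · rw [Matrix.det_mul]
    apply IsUnit.mul
    · have h1 := Matrix.cramer_apply (1 : Matrix (Fin n) (Fin n) F) v i
      rw [Matrix.cramer_one] at h1
      rw [← h1]
      exact Ne.isUnit hi
    · rw [Matrix.det_permutation]
      exact (Int.isUnit_iff.1 (Units.isUnit _)).elim (fun h => by rw [h]; simp)
        (fun h => by rw [h]; simp)
  · rw [← Matrix.mulVec_mulVec]
    have h2 : (Equiv.swap i0 i).toPEquiv.toMatrix.mulVec (Pi.single i0 (1 : F)) = Pi.single i 1 := by
      ext k
      rw [Matrix.mulVec_single_one]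
      simp only [Matrix.col_apply, PEquiv.toMatrix_apply, Equiv.toPEquiv_apply, Option.mem_def,
        Option.some.injEq, Pi.single_apply]
      congr 1
      rw [eq_iff_iff]
      constructor
      · intro h
        have h' := congrArg (Equiv.swap i0 i) h
        rwa [Equiv.swap_apply_self, Equiv.swap_apply_left] at h'
      · rintro rfl
        rw [Equiv.swap_apply_right]
    rw [h2, Matrix.mulVec_single_one]
    ext k
    simp

end act

section moore
variable (F : Type) [Field F] [Fintype F] (n : ℕ)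

/-- the Moore matrix -/
noncomputable def moore : Matrix (Fin n) (Fin n) (MvPolynomial (Fin n) F) :=
  Matrix.of fun a j => X j ^ (Fintype.card F ^ a.val)

/-- the Moore determinant -/
noncomputable def LL : MvPolynomial (Fin n) F := (moore F n).det

/-- its degree -/
def delta : ℕ := ∑ a : Fin n, Fintype.card F ^ a.val

variable {F} {n}

lemma frob_lf (v : Fin n → F) (a : ℕ) :
    (lf v) ^ (Fintype.card F ^ a) = ∑ i, C (v i) * X i ^ (Fintype.card F ^ a) := by
  obtain ⟨p, hp⟩ := CharP.exists F
  haveI := hp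
  obtain ⟨m, hpp, hm⟩ := FiniteField.card F p
  haveI : Fact p.Prime := ⟨hpp⟩
  haveI : CharP (MvPolynomial (Fin n) F) p := inferInstance
  haveI : ExpChar (MvPolynomial (Fin n) F) p := ExpChar.prime hpp
  unfold lf
  rw [hm, ← pow_mul, sum_pow_char_pow]
  apply sum_congr rfl; intro i _
  rw [mul_pow, ← map_pow]
  congr 2
  rw [pow_mul, ← hm, FiniteField.pow_card_pow]

lemma act_moore (g : Matrix (Fin n) (Fin n) F) :
    (moore F n).map (act g) = moore F n * g.map C := by
  ext a j : 2
  simp only [moore, Matrix.map_apply, Matrix.of_apply, map_pow, act_X, frob_lf, Matrix.mul_apply]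
  congr 1
  apply sum_congr rfl; intro i _
  ring

lemma act_LL (g : Matrix (Fin n) (Fin n) F) : act g (LL F n) = C g.det * LL F n := by
  unfold LL
  rw [AlgHom.map_det]
  have h1 : (act g).mapMatrix (moore F n) = moore F n * g.map C := act_moore g
  rw [h1, Matrix.det_mul, mul_comm]
  congr 1
  exact (RingHom.map_det C g).symm

lemma LL_homog : (LL F n).IsHomogeneous (delta F n) := by
  unfold LL
  rw [Matrix.det_apply']
  apply IsHomogeneous.sum
  intro σ _
  have h1 : (((Equiv.Perm.sign σ : ℤ) : MvPolynomial (Fin n) F)).IsHomogeneous 0 := by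
    rw [← map_intCast (C : F →+* MvPolynomial (Fin n) F)]
    exact isHomogeneous_C _ _
  have h2 : (∏ i, moore F n (σ i) i).IsHomogeneous (∑ i, Fintype.card F ^ (σ i).val) := by
    apply IsHomogeneous.prod
    intro i _
    exact isHomogeneous_X_pow _ _
  rw [Equiv.sum_comp σ (fun i => Fintype.card F ^ i.val)] at h2
  have := h1.mul h2
  rwa [zero_add] at this

lemma LL_ne_zero : LL F n ≠ 0 := by
  classical
  intro h0
  have hq : 1 < Fintype.card F := Fintype.one_lt_card
  have hmon : ∀ σ : Equiv.Perm (Fin n), ∏ i, moore F n (σ i) i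
      = monomial (∑ i, Finsupp.single i (Fintype.card F ^ (σ i).val)) 1 := by
    intro σ
    simp only [moore, Matrix.of_apply]
    have : ∀ s : Finset (Fin n), ∏ i ∈ s, (X i : MvPolynomial (Fin n) F) ^ (Fintype.card F ^ (σ i).val)
        = monomial (∑ i ∈ s, Finsupp.single i (Fintype.card F ^ (σ i).val)) 1 := by
      intro s
      induction s using Finset.induction_on with
      | empty => simp
      | insert a s ha ih =>
        rw [prod_insert ha, sum_insert ha, ih, X_pow_eq_monomial, monomial_mul, one_mul]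
    exact this univ
  have h1 : coeff (∑ i : Fin n, Finsupp.single i (Fintype.card F ^ i.val)) (LL F n) = 1 := by
    unfold LL
    rw [Matrix.det_apply', coeff_sum, Finset.sum_eq_single_of_mem 1 (mem_univ _)]
    · rw [hmon]; simp
    · intro σ _ hσ
      rw [hmon, ← map_intCast (C : F →+* MvPolynomial (Fin n) F), coeff_C_mul, coeff_monomial,
        if_neg, mul_zero]
      intro he
      apply hσ
      ext i
      have := DFunLike.congr_fun he i
      rw [Finsupp.finsetSum_apply, Finsupp.finsetSum_apply] at this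
      simp only [Finsupp.single_apply, sum_ite_eq', mem_univ, if_true] at this
      exact Nat.pow_right_injective hq this
  rw [h0, coeff_zero] at h1
  exact zero_ne_one h1

lemma X_dvd_LL (i : Fin n) : X i ∣ LL F n := by
  unfold LL
  rw [Matrix.det_apply']
  apply dvd_sum
  intro σ _
  apply Dvd.dvd.mul_left
  apply dvd_trans _ (dvd_prod_of_mem _ (mem_univ i))
  show X i ∣ X i ^ _
  exact dvd_pow_self _ (pow_ne_zero _ Fintype.card_ne_zero)

lemma lf_dvd_LL (v : Fin n → F) (hv : v ≠ 0) : lf v ∣ LL F n := by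
  obtain ⟨i, hi⟩ := Function.ne_iff.1 hv
  obtain ⟨g, hg, hgv⟩ := exists_gl i v hv
  have h1 : act g (X i) ∣ act g (LL F n) := map_dvd _ (X_dvd_LL i)
  rw [act_LL, ← lf_single i, act_lf, hgv] at h1
  obtain ⟨u, hu⟩ := hg
  have h2 : IsUnit (C g.det : MvPolynomial (Fin n) F) := by
    rw [← hu]; exact u.isUnit.map C
  exact (h2.dvd_mul_left).1 h1

open scoped LinearAlgebra.Projectivization

theorem LL_pow_dvd (e : ℕ) (h : MvPolynomial (Fin n) F) (hh : ∀ v : Fin n → F, v ≠ 0 → (lf v) ^ e ∣ h) :
    (LL F n) ^ e ∣ h := by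
  classical
  haveI : Finite (ℙ F (Fin n → F)) := (Projectivization.finite_iff_of_finite F _).2 inferInstance
  haveI := Fintype.ofFinite (ℙ F (Fin n → F))
  have hrel : ∀ x y : ℙ F (Fin n → F), x ≠ y → IsRelPrime (lf x.rep) (lf y.rep) := by
    intro x y hxy
    rw [(lf_irreducible _ x.rep_nonzero).isRelPrime_iff_not_dvd]
    intro hd
    obtain ⟨c, hc⟩ := lf_dvd _ _ y.rep_nonzero hd
    apply hxy
    rw [← x.mk_rep, ← y.mk_rep, Projectivization.mk_eq_mk_iff']
    have hc0 : c ≠ 0 := by
      rintro rfl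
      exact y.rep_nonzero (by rw [hc, zero_smul])
    exact ⟨c⁻¹, by rw [hc, smul_smul, inv_mul_cancel₀ hc0, one_smul]⟩
  have h1 : ∏ x : ℙ F (Fin n → F), lf x.rep ∣ LL F n := by
    apply Finset.prod_dvd_of_isRelPrime
    · intro x _ y _ hxy
      exact hrel x y hxy
    · intro x _
      exact lf_dvd_LL _ x.rep_nonzero
  obtain ⟨u, hu⟩ := h1
  have hP0 : ∏ x : ℙ F (Fin n → F), lf x.rep ≠ 0 :=
    prod_ne_zero_iff.2 (fun x _ => lf_ne_zero _ x.rep_nonzero)
  have hu0 : u ≠ 0 := by
    rintro rfl
    rw [mul_zero] at hu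
    exact LL_ne_zero hu
  have hPh : (∏ x : ℙ F (Fin n → F), lf x.rep).IsHomogeneous (delta F n) := by
    have := IsHomogeneous.prod (univ : Finset (ℙ F (Fin n → F))) (fun x => lf x.rep) (fun _ => 1)
      (fun x _ => lf_homog _)
    rw [sum_const, card_univ, smul_eq_mul, mul_one] at this
    have hcard : Fintype.card (ℙ F (Fin n → F)) = delta F n := by
      rw [← Nat.card_eq_fintype_card, Projectivization.card_of_finrank F (Fin n → F) (n := n) (by simp),
        Nat.card_eq_fintype_card, delta, Fin.sum_univ_eq_sum_range (fun i => Fintype.card F ^ i)]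
    rwa [hcard] at this
  have h2 := congrArg totalDegree hu
  rw [totalDegree_mul_of_isDomain hP0 hu0, hPh.totalDegree hP0, LL_homog.totalDegree LL_ne_zero] at h2
  have h3 : u.totalDegree = 0 := by omega
  rw [totalDegree_eq_zero_iff_eq_C] at h3
  have h4 : IsUnit u := by
    rw [h3]
    apply IsUnit.map C
    apply Ne.isUnit
    intro h5
    rw [h5, map_zero] at h3
    exact hu0 h3
  rw [hu, mul_pow]
  have h5 : IsUnit (u ^ e) := h4.pow e
  rw [h5.mul_right_dvd, ← prod_pow]
  apply Finset.prod_dvd_of_isRelPrime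
  · intro x _ y _ hxy
    exact (hrel x y hxy).pow
  · intro x _
    exact hh _ x.rep_nonzero

end moore

end Pool.Agent.H268R3.Soc
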