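import Pool.Agent.H268R3.Soc.Dim

set_option autoImplicit false

open Finset

namespace Pool.Agent.H268R3.Soc

section poly
open Polynomial
variable {F : Type} [Field F] [Fintype F] {R : Type} [CommRing R] [IsDomain R] [Algebra F R]

lemma add_pow_card (x y : R) : (x + y) ^ Fintype.card F = x ^ Fintype.card F + y ^ Fintype.card F := by
  obtain ⟨p, hp⟩ := CharP.exists F
  haveI := hp
  obtain ⟨m, hpp, hm⟩ := FiniteField.card F p
  haveI : Fact p.Prime := ⟨hpp⟩
  haveI : CharP R p := charP_of_injective_algebraMap (algebraMap F R).injective p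
  haveI : ExpChar R p := ExpChar.prime hpp
  rw [hm, add_pow_expChar_pow]

/-- the additive polynomial -/
noncomputable def PP (F : Type) [Field F] [Fintype F] (u : R) : R[X] :=
  X ^ Fintype.card F - C (u ^ (Fintype.card F - 1)) * X

variable (F) in
lemma PP_monic (u : R) : (PP F u).Monic := by
  unfold PP
  have hq : 1 < Fintype.card F := Fintype.one_lt_card
  apply monic_X_pow_sub
  refine lt_of_le_of_lt (degree_C_mul_X_le _) ?_
  exact_mod_cast hq

variable (F) in
lemma PP_natDegree (u : R) : (PP F u).natDegree = Fintype.card F := by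
  unfold PP
  have hq : 1 < Fintype.card F := Fintype.one_lt_card
  apply natDegree_eq_of_degree_eq_some
  rw [degree_sub_eq_left_of_degree_lt]
  · exact degree_X_pow _
  · rw [degree_X_pow]
    refine lt_of_le_of_lt (degree_C_mul_X_le _) ?_
    exact_mod_cast hq

lemma PP_comp (u : R) (a : F) : (PP F u).comp (X + C (a • u)) = PP F u := by
  unfold PP
  have hq : 1 < Fintype.card F := Fintype.one_lt_card
  have h2 : (X + C (a • u) : R[X]) ^ Fintype.card F = X ^ Fintype.card F + C (a • u) ^ Fintype.card F :=
    add_pow_card (F := F) _ _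
  rw [sub_comp, pow_comp, X_comp, mul_comp, C_comp, X_comp, h2, mul_add]
  have h1 : (C (a • u) : R[X]) ^ Fintype.card F = C (u ^ (Fintype.card F - 1)) * C (a • u) := by
    rw [← C_pow, ← C_mul]
    congr 1
    rw [_root_.smul_pow, FiniteField.pow_card, mul_smul_comm, ← pow_succ, Nat.sub_add_cancel (le_of_lt hq)]
  rw [h1]
  ring

theorem periodic_coeff (u : R) (hu : u ≠ 0) (f : R[X])
    (hf : ∀ a : F, f.comp (X + C (a • u)) = f) (e : ℕ) (he : ¬ Fintype.card F ∣ e) :
    u ∣ f.coeff e := by
  have hq : 1 < Fintype.card F := Fintype.one_lt_card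
  induction hN : f.natDegree using Nat.strong_induction_on generalizing f e with
  | _ N ih =>
  have hP := PP_monic F u
  have hPn := PP_natDegree F u
  have hP1 : PP F u ≠ 1 := by
    intro h
    rw [h, natDegree_one] at hPn
    omega
  have hdeg : (PP F u).degree = (Fintype.card F : ℕ) := by
    rw [degree_eq_natDegree hP.ne_zero, hPn]
  have hdec := modByMonic_add_div f (PP F u)
  have hrlt : (f %ₘ PP F u).natDegree < Fintype.card F := by
    rw [← hPn]; exact natDegree_modByMonic_lt f hP hP1
  have huniq : ∀ a : F, (f /ₘ PP F u).comp (X + C (a • u)) = f /ₘ PP F u ∧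
      (f %ₘ PP F u).comp (X + C (a • u)) = f %ₘ PP F u := by
    intro a
    have h1 := div_modByMonic_unique (f := f) (g := PP F u)
      ((f /ₘ PP F u).comp (X + C (a • u))) ((f %ₘ PP F u).comp (X + C (a • u))) hP ⟨?_, ?_⟩
    · exact ⟨h1.1.symm, h1.2.symm⟩
    · conv_rhs => rw [← hf a, ← hdec, add_comp, mul_comp, PP_comp]
    · refine lt_of_le_of_lt degree_le_natDegree ?_
      rw [natDegree_comp, natDegree_X_add_C, mul_one, hdeg]
      exact_mod_cast hrlt
  have hrconst : f %ₘ PP F u = C ((f %ₘ PP F u).eval 0) := by
    rw [← sub_eq_zero]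
    have hinj : Function.Injective (fun a : F => a • u) := by
      intro a b hab
      have : (a - b) • u = 0 := by rw [sub_smul]; exact sub_eq_zero.2 hab
      rw [Algebra.smul_def, mul_eq_zero] at this
      rcases this with h | h
      · exact sub_eq_zero.1 ((algebraMap F R).injective (by rw [h, map_zero]))
      · exact absurd h hu
    refine eq_zero_of_natDegree_lt_card_of_eval_eq_zero _ hinj ?_ ?_
    · intro a
      have h1 := congrArg (eval 0) (huniq a).2
      rw [eval_comp, eval_add, eval_X, eval_C, zero_add] at h1
      rw [eval_sub, eval_C, h1, sub_self]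
    · rw [natDegree_sub_C]; exact hrlt
  have he0 : e ≠ 0 := by rintro rfl; exact he (dvd_zero _)
  have hcoef : f.coeff e = (PP F u * (f /ₘ PP F u)).coeff e := by
    conv_lhs => rw [← hdec, coeff_add, hrconst, coeff_C_ne_zero he0, zero_add]
  by_cases hlt : f.natDegree < Fintype.card F
  · have h1 : f %ₘ PP F u = f := by
      rw [modByMonic_eq_self_iff hP, hdeg]
      refine lt_of_le_of_lt degree_le_natDegree ?_
      exact_mod_cast hlt
    rw [← h1, hrconst, coeff_C_ne_zero he0]
    exact dvd_zero _
  · rw [hcoef]
    unfold PP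
    rw [sub_mul, coeff_sub]
    apply dvd_sub
    · rw [coeff_X_pow_mul']
      split_ifs with h
      · apply ih ((f /ₘ PP F u).natDegree) _ _ (fun a => (huniq a).1) _ _ rfl
        · rw [natDegree_divByMonic f hP, hPn]; omega
        · intro hd
          apply he
          have := (Nat.dvd_add_self_right (m := Fintype.card F) (n := e - Fintype.card F)).2 hd
          rwa [Nat.sub_add_cancel h] at this
      · exact dvd_zero _
    · rw [mul_assoc, coeff_C_mul]
      apply Dvd.dvd.mul_right
      exact dvd_pow_self _ (by omega)

end poly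

section mv
open MvPolynomial
variable {F : Type} [Field F] [Fintype F] {n : ℕ}

/-- make the variable `j` into a polynomial variable -/
noncomputable def hat (j : Fin n) : MvPolynomial (Fin n) F →ₐ[F] Polynomial (MvPolynomial (Fin n) F) :=
  aeval (fun i => if i = j then Polynomial.X else Polynomial.C (X i))

omit [Fintype F] in
lemma hat_X (j i : Fin n) : hat j (X i : MvPolynomial (Fin n) F)
    = if i = j then Polynomial.X else Polynomial.C (X i) := by
  unfold hat; rw [aeval_X]

omit [Fintype F] in
lemma hat_C (j : Fin n) (a : F) : hat j (C a : MvPolynomial (Fin n) F) = Polynomial.C (C a) := by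
  unfold hat; rw [aeval_C]; rfl

omit [Fintype F] in
lemma hat_monomial (j : Fin n) (m : Fin n →₀ ℕ) (a : F) :
    hat j (monomial m a) = Polynomial.C (monomial (m.erase j) a) * Polynomial.X ^ m j := by
  classical
  have h1 : (monomial m a : MvPolynomial (Fin n) F) = monomial (m.erase j) a * X j ^ m j := by
    rw [X_pow_eq_monomial, monomial_mul, mul_one, Finsupp.erase_add_single]
  rw [h1, map_mul, map_pow, hat_X, if_pos rfl]
  congr 1
  have h2 : ∀ m' : Fin n →₀ ℕ, m' j = 0 → hat j (monomial m' a) = Polynomial.C (monomial m' a) := by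
    intro m' hm'
    rw [monomial_eq, Finsupp.prod_fintype _ _ (fun i => by rw [pow_zero]), map_mul, map_prod, hat_C,
      map_mul, map_prod]
    congr 1
    apply prod_congr rfl
    intro i _
    rw [map_pow, map_pow, hat_X]
    by_cases h : i = j
    · rw [h, hm', pow_zero, pow_zero]
    · rw [if_neg h]
  exact h2 _ (Finsupp.erase_same)

omit [Fintype F] in
lemma coeff_hat (j : Fin n) (m : Fin n →₀ ℕ) (f : MvPolynomial (Fin n) F) :
    coeff m f = coeff (m.erase j) ((hat j f).coeff (m j)) := by
  classical
  induction f using MvPolynomial.induction_on' with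
  | monomial m' a =>
    rw [hat_monomial, Polynomial.coeff_C_mul_X_pow, coeff_monomial]
    by_cases h : m' = m
    · rw [h, if_pos rfl, if_pos rfl, coeff_monomial, if_pos rfl]
    · rw [if_neg h]
      by_cases h1 : m j = m' j
      · rw [if_pos h1, coeff_monomial, if_neg]
        intro h2
        apply h
        rw [← Finsupp.erase_add_single j m', ← Finsupp.erase_add_single j m, h2, h1]
      · rw [if_neg h1, coeff_zero]
  | add p q hp hq => rw [map_add, Polynomial.coeff_add, coeff_add, coeff_add, hp, hq]

omit [Fintype F] in
lemma hat_transvection (j i0 : Fin n) (hj : i0 ≠ j) (a : F) (f : MvPolynomial (Fin n) F) :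
    hat j (act (Matrix.transvection i0 j a) f)
      = (hat j f).comp (Polynomial.X + Polynomial.C (a • X i0)) := by
  classical
  have h1 : ((hat j).comp (act (Matrix.transvection i0 j a))).toRingHom
      = (Polynomial.compRingHom (Polynomial.X + Polynomial.C (a • (X i0 : MvPolynomial (Fin n) F)))).comp
        (hat j).toRingHom := by
    apply ringHom_ext
    · intro c
      simp only [AlgHom.toRingHom_eq_coe, RingHom.coe_coe, AlgHom.comp_apply, act_C, hat_C,
        RingHom.comp_apply, Polynomial.coe_compRingHom_apply, Polynomial.C_comp]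
    · intro i
      simp only [AlgHom.toRingHom_eq_coe, RingHom.coe_coe, AlgHom.comp_apply,
        RingHom.comp_apply, Polynomial.coe_compRingHom_apply]
      have hcol : act (Matrix.transvection i0 j a) (X i)
          = X i + if i = j then C a * X i0 else 0 := by
        rw [← lf_single i, act_lf]
        have : (Matrix.transvection i0 j a).mulVec (Pi.single i 1)
            = Pi.single i 1 + (if i = j then a • Pi.single i0 1 else 0) := by
          ext k
          rw [Matrix.mulVec_single_one, Matrix.col_apply]
          simp only [Matrix.transvection, Matrix.add_apply, Matrix.one_apply, Matrix.single_apply,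
            Pi.add_apply, Pi.single_apply]
          by_cases h : i = j
          · rw [if_pos h]
            simp only [h, and_true, Pi.smul_apply, Pi.single_apply, smul_eq_mul, mul_ite, mul_one, mul_zero]
            congr 1
            simp only [eq_comm]
          · have hh : ¬ (i0 = k ∧ j = i) := fun hh => h hh.2.symm
            rw [if_neg hh, if_neg h, Pi.zero_apply]
        rw [this, lf_add]
        congr 1
        split_ifs
        · rw [lf_smul, lf_single]
        · exact lf_zero
      rw [hcol, map_add, hat_X]
      by_cases h : i = j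
      · rw [if_pos h, if_pos h, map_mul, hat_C, hat_X, if_neg hj, Polynomial.X_comp,
          smul_eq_C_mul, Polynomial.C_mul]
      · rw [if_neg h, if_neg h, map_zero, add_zero, Polynomial.C_comp]
  exact congrArg (fun g : MvPolynomial (Fin n) F →+* Polynomial (MvPolynomial (Fin n) F) => g f) h1

theorem inv_coeff_dvd (f : MvPolynomial (Fin n) F) (hf : IsInv f) (i0 j : Fin n) (hj : i0 ≠ j)
    (m : Fin n →₀ ℕ) (hm : coeff m f ≠ 0) (hm0 : m i0 = 0) : Fintype.card F ∣ m j := by
  classical
  by_contra hcon
  have h1 : ∀ a : F, (hat j f).comp (Polynomial.X + Polynomial.C (a • X i0)) = hat j f := by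
    intro a
    rw [← hat_transvection j i0 hj, hf]
    rw [Matrix.det_transvection_of_ne _ _ hj]
    exact isUnit_one
  obtain ⟨u, hu⟩ := periodic_coeff (F := F) (X i0 : MvPolynomial (Fin n) F) (X_ne_zero _) (hat j f) h1
    (m j) hcon
  apply hm
  rw [coeff_hat j, hu, coeff_X_mul', if_neg]
  rw [Finsupp.mem_support_iff, not_not, Finsupp.erase_ne hj, hm0]

end mv

end Pool.Agent.H268R3.Soc
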