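import Pool.Agent.H268R3.Soc.Indep

set_option autoImplicit false

open MvPolynomial Finset

namespace Pool.Agent.H268R3.Soc

section actZ
variable {B : Type} [CommRing B] {n : ℕ}

/-- the substitution `Z ↦ Z * Y` -/
noncomputable def actZ (Y : Matrix (Fin n) (Fin n) B) : ZR B n →ₐ[B] ZR B n :=
  aeval (fun x => ∑ i, C (Y i x.2) * X (x.1, i))

lemma actZ_X (Y : Matrix (Fin n) (Fin n) B) (x : ℕ × Fin n) :
    actZ Y (X x) = ∑ j, C (Y j x.2) * X (x.1, j) := by
  unfold actZ
  rw [aeval_X]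

lemma actZ_C (Y : Matrix (Fin n) (Fin n) B) (b : B) :
    actZ Y (C b) = C b := by
  unfold actZ
  rw [aeval_C]; rfl

lemma actZ_mul_apply (Y Y' : Matrix (Fin n) (Fin n) B) (f : ZR B n) :
    actZ (Y * Y') f = actZ Y (actZ Y' f) := by
  have h : actZ (Y * Y') = (actZ Y).comp (actZ Y') := by
    apply algHom_ext
    rintro ⟨a, i⟩
    rw [AlgHom.comp_apply, actZ_X, actZ_X, map_sum]
    simp only [map_mul, actZ_X, actZ_C]
    simp only [Matrix.mul_apply, map_sum, map_mul]
    simp only [mul_sum, sum_mul]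
    rw [sum_comm]
    apply sum_congr rfl; intro j _
    apply sum_congr rfl; intro k _
    ring
  rw [h, AlgHom.comp_apply]

lemma actZ_one_apply (f : ZR B n) : actZ (1 : Matrix (Fin n) (Fin n) B) f = f := by
  have h : actZ (1 : Matrix (Fin n) (Fin n) B) = AlgHom.id B _ := by
    apply algHom_ext
    rintro ⟨a, i⟩
    rw [actZ_X, AlgHom.id_apply, Finset.sum_eq_single_of_mem i (mem_univ _)]
    · simp
    · intro j _ hj
      simp [Matrix.one_apply_ne hj]
  rw [h, AlgHom.id_apply]

lemma actZ_map {B' : Type} [CommRing B'] (φ : B →+* B') (Y : Matrix (Fin n) (Fin n) B)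
    (f : ZR B n) : map φ (actZ Y f) = actZ (Y.map φ) (map φ f) := by
  have h : (map φ).comp (actZ Y).toRingHom = (actZ (Y.map φ)).toRingHom.comp (map φ) := by
    apply ringHom_ext
    · intro b
      simp [actZ_C]
    · rintro ⟨a, i⟩
      simp [actZ_X]
  exact congrArg (fun g : ZR B n →+* ZR B' n => g f) h

lemma cdet_map {B' : Type} [CommRing B'] (φ : B →+* B') (l : ℕ) (κ : ℕ → Fin n) :
    map φ (cdet B l κ) = cdet B' l κ := by
  unfold cdet
  rw [RingHom.map_det]
  congr 1
  ext a b : 2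
  simp

lemma bdet_map {B' : Type} [CommRing B'] (φ : B →+* B') (c : ℕ) (l : ℕ → ℕ)
    (T : ℕ → ℕ → Fin n) :
    map φ (bdet B c l T) = bdet B' c l T := by
  unfold bdet
  rw [map_prod]
  exact prod_congr rfl (fun j _ => cdet_map _ _ _)

lemma actZ_cdet_mem (Y : Matrix (Fin n) (Fin n) B) (l : ℕ) (κ : ℕ → Fin n) :
    actZ Y (cdet B l κ) ∈ Submodule.span B (Set.range (fun κ' : ℕ → Fin n => cdet B l κ')) := by
  classical
  have h1 : actZ Y (cdet B l κ) = (Matrix.detRowAlternating (R := ZR B n) (n := Fin l))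
      (fun b : Fin l => ∑ i : Fin n, (C (Y i (κ b.val)) : ZR B n) •
        (fun a : Fin l => (X (a.val, i) : ZR B n))) := by
    show _ = Matrix.det _
    unfold cdet
    rw [AlgHom.map_det, ← Matrix.det_transpose]
    congr 1
    ext b a : 2
    simp only [AlgHom.mapMatrix_apply, Matrix.transpose_apply, Matrix.map_apply, Matrix.of_apply,
      actZ_X, Finset.sum_apply, Pi.smul_apply, smul_eq_mul]
  rw [h1]
  have h2 := (Matrix.detRowAlternating (R := ZR B n) (n := Fin l)).toMultilinearMap.map_sum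
    (fun (b : Fin l) (i : Fin n) => (C (Y i (κ b.val)) : ZR B n) •
      (fun a : Fin l => (X (a.val, i) : ZR B n)))
  rw [AlternatingMap.coe_multilinearMap] at h2
  rw [h2]
  apply Submodule.sum_mem
  intro r _
  have h3 := (Matrix.detRowAlternating (R := ZR B n) (n := Fin l)).toMultilinearMap.map_smul_univ
    (fun b : Fin l => (C (Y (r b) (κ b.val)) : ZR B n))
    (fun b : Fin l => (fun a : Fin l => (X (a.val, r b) : ZR B n)))
  rw [AlternatingMap.coe_multilinearMap] at h3
  rw [h3]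
  have h4 : (Matrix.detRowAlternating (R := ZR B n) (n := Fin l))
      (fun b : Fin l => (fun a : Fin l => (X (a.val, r b) : ZR B n)))
      = cdet B l (fun b => if h : b < l then r ⟨b, h⟩ else κ 0) := by
    show Matrix.det _ = _
    unfold cdet
    rw [← Matrix.det_transpose]
    congr 1
    ext a b : 2
    simp
  rw [h4, ← map_prod, smul_eq_mul, ← smul_eq_C_mul]
  exact Submodule.smul_mem _ _ (Submodule.subset_span ⟨_, rfl⟩)

lemma prod_mem_span (c : ℕ) (l : ℕ → ℕ) (T0 : ℕ → ℕ → Fin n) (u : ℕ → ZR B n)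
    (hu : ∀ j < c, u j ∈ Submodule.span B (Set.range (fun κ' : ℕ → Fin n => cdet B (l j) κ'))) :
    ∏ j ∈ range c, u j ∈ Submodule.span B (Set.range (fun T : ℕ → ℕ → Fin n => bdet B c l T)) := by
  induction c with
  | zero =>
    apply Submodule.subset_span
    exact ⟨T0, by simp [bdet]⟩
  | succ c ih =>
    rw [prod_range_succ]
    have h1 := Submodule.mul_mem_mul (ih (fun j hj => hu j (by omega))) (hu c (by omega))
    rw [Submodule.span_mul_span] at h1
    refine Submodule.span_mono ?_ h1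
    rintro _ ⟨_, ⟨T, rfl⟩, _, ⟨κ, rfl⟩, rfl⟩
    refine ⟨fun b j => if j = c then κ b else T b j, ?_⟩
    show bdet B (c + 1) l _ = bdet B c l T * cdet B (l c) κ
    unfold bdet
    rw [prod_range_succ]
    congr 1
    · apply prod_congr rfl
      intro j hj
      apply cdet_congr
      intro b _
      show (if j = c then κ b else T b j) = T b j
      rw [if_neg (by have := mem_range.1 hj; omega)]
    · apply cdet_congr
      intro b _
      show (if c = c then κ b else T b c) = κ b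
      rw [if_pos rfl]

lemma actZ_bdet_mem (Y : Matrix (Fin n) (Fin n) B) (c : ℕ) (l : ℕ → ℕ)
    (hl : ∀ j, j + 1 < c → l (j + 1) ≤ l j)
    (hu : IsUnit ((Nat.factorial (∑ j ∈ range c, l j) : ℕ) : B)) (T : ℕ → ℕ → Fin n) :
    actZ Y (bdet B c l T) ∈ ssSpan B n c l := by
  have h1 : actZ Y (bdet B c l T) ∈
      Submodule.span B (Set.range (fun T : ℕ → ℕ → Fin n => bdet B c l T)) := by
    unfold bdet
    rw [map_prod]
    exact prod_mem_span c l T _ (fun j _ => actZ_cdet_mem Y _ _)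
  have h2 : Submodule.span B (Set.range (fun T : ℕ → ℕ → Fin n => bdet B c l T)) ≤ ssSpan B n c l := by
    rw [Submodule.span_le]
    rintro _ ⟨T, rfl⟩
    exact bdet_mem_ssSpan c l hl hu T
  exact h2 h1

end actZ

/-- a finite indexing of the semistandard fillings -/
structure Sys (n c : ℕ) (l : ℕ → ℕ) (ι : Type) where
  T : ι → ℕ → ℕ → Fin n
  ss : ∀ i, IsSS c l (T i)
  inj : ∀ i i', tmon c l (T i) = tmon c l (T i') → i = i'
  surj : ∀ T0, IsSS c l T0 → ∃ i, ∀ j < c, ∀ b < l j, T i b j = T0 b j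
  anti : ∀ j, j + 1 < c → l (j + 1) ≤ l j

section Rmat
variable {n c : ℕ} {l : ℕ → ℕ} {ι : Type} [Fintype ι] [DecidableEq ι] (Q : Sys n c l ι)

lemma ssSpan_eq (B : Type) [CommRing B] :
    ssSpan B n c l = Submodule.span B (Set.range (fun i => bdet B c l (Q.T i))) := by
  apply le_antisymm
  · unfold ssSpan
    apply Submodule.span_mono
    rintro w ⟨T, hT, rfl⟩
    obtain ⟨i, hi⟩ := Q.surj T hT
    exact ⟨i, bdet_congr c l _ _ hi⟩
  · unfold ssSpan
    apply Submodule.span_mono
    rintro w ⟨i, rfl⟩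
    exact ⟨_, Q.ss i, rfl⟩

lemma exists_coords (B : Type) [CommRing B] (w : ZR B n) (hw : w ∈ ssSpan B n c l) :
    ∃ r : ι → B, w = ∑ s, r s • bdet B c l (Q.T s) := by
  rw [ssSpan_eq Q, Submodule.mem_span_range_iff_exists_fun] at hw
  obtain ⟨r, hr⟩ := hw
  exact ⟨r, hr.symm⟩

lemma coords_unique (B : Type) [CommRing B] (r r' : ι → B)
    (h : ∑ s, r s • bdet B c l (Q.T s) = ∑ s, r' s • bdet B c l (Q.T s)) : r = r' := by
  have hli := bdet_linearIndependent (A := B) c l Q.T Q.ss Q.inj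
  have h1 : ∑ s, (r s - r' s) • bdet B c l (Q.T s) = 0 := by
    simp only [sub_smul, sum_sub_distrib, h, sub_self]
  have h2 := (Fintype.linearIndependent_iff.1 hli) _ h1
  ext s
  exact sub_eq_zero.1 (h2 s)

variable (F : Type) [Field F]

/-- the generic matrix -/
noncomputable def Yu (F : Type) [Field F] (n : ℕ) :
    Matrix (Fin n) (Fin n) (MvPolynomial (Fin n × Fin n) F) :=
  Matrix.of fun i j => X (i, j)

variable (hu : IsUnit ((Nat.factorial (∑ j ∈ range c, l j) : ℕ) : F))

include Q hu in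
lemma exists_R (i : ι) : ∃ r : ι → MvPolynomial (Fin n × Fin n) F,
    actZ (Yu F n) (bdet _ c l (Q.T i)) = ∑ s, r s • bdet _ c l (Q.T s) := by
  apply exists_coords Q
  apply actZ_bdet_mem _ _ _ Q.anti
  have := hu.map (C : F →+* MvPolynomial (Fin n × Fin n) F)
  rwa [map_natCast] at this

/-- the universal representing matrix -/
noncomputable def Ru : Matrix ι ι (MvPolynomial (Fin n × Fin n) F) :=
  Matrix.of fun s i => Classical.choose (exists_R Q F hu i) s

lemma Ru_spec (i : ι) : actZ (Yu F n) (bdet _ c l (Q.T i))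
    = ∑ s, Ru Q F hu s i • bdet _ c l (Q.T s) :=
  Classical.choose_spec (exists_R Q F hu i)

variable {F}
variable {B : Type} [CommRing B] [Algebra F B] {B' : Type} [CommRing B'] [Algebra F B']

/-- the representing matrix -/
noncomputable def Rm (Y : Matrix (Fin n) (Fin n) B) : Matrix ι ι B :=
  (Ru Q F hu).map (aeval (fun p : Fin n × Fin n => Y p.1 p.2))

lemma Rm_spec (Y : Matrix (Fin n) (Fin n) B) (i : ι) :
    actZ Y (bdet B c l (Q.T i)) = ∑ s, Rm Q hu Y s i • bdet B c l (Q.T s) := by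
  have h := congrArg (map ((aeval (fun p : Fin n × Fin n => Y p.1 p.2) :
    MvPolynomial (Fin n × Fin n) F →ₐ[F] B) : MvPolynomial (Fin n × Fin n) F →+* B)) (Ru_spec Q F hu i)
  rw [actZ_map, bdet_map, map_sum] at h
  have h2 : (Yu F n).map ((aeval (fun p : Fin n × Fin n => Y p.1 p.2) :
    MvPolynomial (Fin n × Fin n) F →ₐ[F] B) : MvPolynomial (Fin n × Fin n) F →+* B) = Y := by
    ext a b : 2
    simp [Yu]
  rw [h2] at h
  rw [h]
  apply sum_congr rfl
  intro s _
  rw [smul_eq_C_mul, map_mul, bdet_map, map_C, ← smul_eq_C_mul]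
  rfl

lemma Rm_unique (Y : Matrix (Fin n) (Fin n) B) (r : Matrix ι ι B)
    (h : ∀ i, actZ Y (bdet B c l (Q.T i)) = ∑ s, r s i • bdet B c l (Q.T s)) :
    Rm Q hu Y = r := by
  ext s i
  have := coords_unique Q B (fun s => Rm Q hu Y s i) (fun s => r s i)
    (by rw [← h, ← Rm_spec])
  exact congrFun this s

lemma Rm_mul (Y Y' : Matrix (Fin n) (Fin n) B) :
    Rm Q hu (Y * Y') = Rm Q hu Y * Rm Q hu Y' := by
  apply Rm_unique
  intro i
  rw [actZ_mul_apply, Rm_spec Q hu Y' i, map_sum]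
  simp only [map_smul, Rm_spec Q hu Y, Matrix.mul_apply, smul_sum, sum_smul, smul_smul]
  rw [sum_comm]
  apply sum_congr rfl; intro s _
  apply sum_congr rfl; intro k _
  rw [mul_comm]

lemma Rm_map (φ : B →ₐ[F] B') (Y : Matrix (Fin n) (Fin n) B) :
    Rm Q hu (Y.map φ) = (Rm Q hu Y).map φ := by
  unfold Rm
  ext s i
  simp only [Matrix.map_apply]
  rw [← AlgHom.comp_apply]
  congr 1
  apply algHom_ext
  intro p
  simp

lemma cdet_diag (t : Fin n → B) (l : ℕ) (κ : ℕ → Fin n) :
    actZ (Matrix.diagonal t) (cdet B l κ) = (∏ b ∈ range l, t (κ b)) • cdet B l κ := by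
  have hX : ∀ x : ℕ × Fin n, actZ (Matrix.diagonal t) (X x) = C (t x.2) * X x := by
    intro x
    rw [actZ_X, Finset.sum_eq_single_of_mem x.2 (mem_univ _)]
    · rw [Matrix.diagonal_apply_eq]
    · intro j _ hj
      rw [Matrix.diagonal_apply_ne _ hj, C_0, zero_mul]
  unfold cdet
  rw [AlgHom.map_det]
  have : (AlgHom.mapMatrix (actZ (Matrix.diagonal t)))
      (Matrix.of fun a b : Fin l => (X (a.val, κ b.val) : ZR B n))
      = (Matrix.of fun a b : Fin l => (X (a.val, κ b.val) : ZR B n)) *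
        Matrix.diagonal (fun b : Fin l => C (t (κ b.val))) := by
    ext a b : 2
    rw [Matrix.mul_diagonal]
    simp only [AlgHom.mapMatrix_apply, Matrix.map_apply, Matrix.of_apply, hX]
    ring
  rw [this, Matrix.det_mul, Matrix.det_diagonal, smul_eq_C_mul, map_prod,
    ← Fin.prod_univ_eq_prod_range (fun b => (C (t (κ b)) : ZR B n)), mul_comm]

lemma bdet_diag (t : Fin n → B) (c : ℕ) (l : ℕ → ℕ) (T : ℕ → ℕ → Fin n) :
    actZ (Matrix.diagonal t) (bdet B c l T)
      = (∏ j ∈ range c, ∏ b ∈ range (l j), t (T b j)) • bdet B c l T := by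
  unfold bdet
  rw [map_prod]
  simp only [cdet_diag, smul_eq_C_mul]
  rw [prod_mul_distrib, map_prod]

/-- number of letters `v` in a filling -/
def wt (c : ℕ) (l : ℕ → ℕ) (T : ℕ → ℕ → Fin n) (v : Fin n) : ℕ :=
  ∑ j ∈ range c, ((range (l j)).filter (fun b => T b j = v)).card

lemma prod_wt (t : Fin n → B) (c : ℕ) (l : ℕ → ℕ) (T : ℕ → ℕ → Fin n) :
    ∏ j ∈ range c, ∏ b ∈ range (l j), t (T b j) = ∏ v, t v ^ wt c l T v := by
  unfold wt
  simp only [← prod_pow_eq_pow_sum]
  rw [prod_comm]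
  apply prod_congr rfl
  intro j _
  rw [← prod_fiberwise (range (l j)) (fun b => T b j)]
  apply prod_congr rfl
  intro v _
  rw [prod_congr rfl (g := fun _ => t v) (fun b hb => by rw [(mem_filter.1 hb).2]), prod_const]

lemma Rm_diag (t : Fin n → B) :
    Rm Q hu (Matrix.diagonal t) = Matrix.diagonal (fun i => ∏ v, t v ^ wt c l (Q.T i) v) := by
  apply Rm_unique
  intro i
  rw [bdet_diag, prod_wt, Finset.sum_eq_single_of_mem i (mem_univ _)]
  · rw [Matrix.diagonal_apply_eq]
  · intro j _ hj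
    rw [Matrix.diagonal_apply_ne _ hj, zero_smul]

lemma Rm_one : Rm Q hu (1 : Matrix (Fin n) (Fin n) B) = 1 := by
  rw [← Matrix.diagonal_one, Rm_diag, ← Matrix.diagonal_one]
  congr 1
  ext i
  simp

lemma wt_sum (c : ℕ) (l : ℕ → ℕ) (T : ℕ → ℕ → Fin n) : ∑ v, wt c l T v = ∑ j ∈ range c, l j := by
  unfold wt
  rw [sum_comm]
  apply sum_congr rfl
  intro j _
  have := card_eq_sum_card_fiberwise (s := range (l j)) (t := univ) (f := fun b => T b j)
    (fun _ _ => mem_coe.2 (mem_univ _))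
  rw [card_range] at this
  exact this.symm

lemma wt_le (c : ℕ) (l : ℕ → ℕ) (T : ℕ → ℕ → Fin n) (hT : IsSS c l T) (v : Fin n) :
    wt c l T v ≤ c := by
  unfold wt
  have : ∀ j ∈ range c, ((range (l j)).filter (fun b => T b j = v)).card ≤ 1 := by
    intro j hj
    rw [card_le_one]
    intro a ha b hb
    rw [mem_filter, mem_range] at ha hb
    by_contra hne
    rcases lt_or_gt_of_ne hne with h | h
    · have := hT.1 j (mem_range.1 hj) a b h hb.1
      rw [ha.2, hb.2] at this
      exact lt_irrefl _ this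
    · have := hT.1 j (mem_range.1 hj) b a h ha.1
      rw [ha.2, hb.2] at this
      exact lt_irrefl _ this
  calc _ ≤ ∑ _j ∈ range c, 1 := sum_le_sum this
    _ = c := by simp

end Rmat

end Pool.Agent.H268R3.Soc
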