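import Pool.Agent.H268R3.Soc.Period

set_option autoImplicit false

open MvPolynomial Finset

namespace Pool.Agent.H268R3.Soc

variable {F : Type} [Field F] {n : ℕ}

/-- restriction to `X_0 = 0` -/
noncomputable def rho : MvPolynomial (Fin (n + 1)) F →ₐ[F] MvPolynomial (Fin n) F :=
  aeval (Fin.cases 0 X)

lemma rho_X0 : rho (X 0 : MvPolynomial (Fin (n + 1)) F) = 0 := by
  unfold rho; rw [aeval_X]; rfl

lemma rho_Xs (j : Fin n) : rho (X j.succ : MvPolynomial (Fin (n + 1)) F) = X j := by
  unfold rho; rw [aeval_X]; rfl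

lemma rho_C (a : F) : rho (C a : MvPolynomial (Fin (n + 1)) F) = C a := by
  unfold rho; rw [aeval_C]; rfl

lemma rho_coeff (f : MvPolynomial (Fin (n + 1)) F) (m : Fin n →₀ ℕ) :
    coeff m (rho f) = coeff (m.cons 0) f := by
  rw [← finSuccEquiv_coeff_coeff]
  congr 1
  have h : (rho : MvPolynomial (Fin (n + 1)) F →ₐ[F] MvPolynomial (Fin n) F).toRingHom
      = (Polynomial.constantCoeff).comp (finSuccEquiv F n).toAlgHom.toRingHom := by
    apply ringHom_ext
    · intro a
      simp [rho_C, finSuccEquiv_apply]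
    · intro i
      refine Fin.cases ?_ (fun j => ?_) i
      · simp [rho_X0, finSuccEquiv_X_zero]
      · simp [rho_Xs, finSuccEquiv_X_succ]
  exact congrArg (fun g : MvPolynomial (Fin (n + 1)) F →+* MvPolynomial (Fin n) F => g f) h

lemma rho_homog (f : MvPolynomial (Fin (n + 1)) F) (m : ℕ) (hf : f.IsHomogeneous m) :
    (rho f).IsHomogeneous m := by
  have := IsHomogeneous.aeval hf (Fin.cases 0 X : Fin (n + 1) → MvPolynomial (Fin n) F) (n := 1) ?_
  · rwa [one_mul] at this
  · intro i
    refine Fin.cases ?_ (fun j => ?_) i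
    · exact isHomogeneous_zero _ _ _
    · exact isHomogeneous_X _ _

lemma exp_modEq [Fintype F] (i0 : Fin n) (f : MvPolynomial (Fin n) F) (hf : IsInv f)
    (m : Fin n →₀ ℕ) (hm : coeff m f ≠ 0) : (Fintype.card F - 1) ∣ m i0 := by
  classical
  obtain ⟨u, hu⟩ := IsCyclic.exists_generator (α := Fˣ)
  have hdet : (Matrix.diagonal (Function.update (1 : Fin n → F) i0 (u : F))).det = u := by
    rw [Matrix.det_diagonal, Finset.prod_eq_single_of_mem i0 (mem_univ _)]
    · rw [Function.update_self]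
    · intro j _ hj
      rw [Function.update_of_ne hj, Pi.one_apply]
  have h1 := congrArg (coeff m) (hf (Matrix.diagonal (Function.update (1 : Fin n → F) i0 (u : F)))
    (by rw [hdet]; exact u.isUnit))
  rw [act_diag_coeff] at h1
  have h2 : (∏ i, (Function.update 1 i0 (u : F) : Fin n → F) i ^ m i) = 1 :=
    mul_right_cancel₀ hm (by rw [h1, one_mul])
  have h3 : ∏ i, (Function.update 1 i0 (u : F) : Fin n → F) i ^ m i = (u : F) ^ m i0 := by
    rw [Finset.prod_eq_single_of_mem i0 (mem_univ _)]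
    · rw [Function.update_self]
    · intro j _ hj
      rw [Function.update_of_ne hj, Pi.one_apply, one_pow]
  rw [h3] at h2
  have h4 : u ^ m i0 = 1 := by
    apply Units.ext
    rw [Units.val_pow_eq_pow_val, h2, Units.val_one]
  rw [← orderOf_dvd_iff_pow_eq_one, orderOf_eq_card_of_forall_mem_zpowers hu,
    Nat.card_eq_fintype_card, Fintype.card_units] at h4
  exact h4

variable [Fintype F]

lemma ker_X_pow (f : MvPolynomial (Fin (n + 1)) F) (hf : IsInv f) (hr : rho f = 0) :
    X 0 ^ (Fintype.card F - 1) ∣ f := by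
  apply X_pow_dvd
  intro m hm
  have h1 := exp_modEq 0 f hf m hm
  have h2 : m 0 ≠ 0 := by
    intro h0
    have h3 := rho_coeff f m.tail
    rw [hr, coeff_zero, ← h0, Finsupp.cons_tail] at h3
    exact hm h3.symm
  exact Nat.le_of_dvd (Nat.pos_of_ne_zero h2) h1

lemma ker_LL (f : MvPolynomial (Fin (n + 1)) F) (hf : IsInv f) (hr : rho f = 0) :
    (LL F (n + 1)) ^ (Fintype.card F - 1) ∣ f := by
  apply LL_pow_dvd
  intro v hv0
  obtain ⟨g, hg, hgv⟩ := exists_gl 0 v hv0
  have h1 := map_dvd (act g) (ker_X_pow f hf hr)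
  rwa [map_pow, ← lf_single 0, act_lf, hgv, hf g hg] at h1

lemma LLq_inv : IsInv ((LL F n) ^ (Fintype.card F - 1)) := by
  intro g hg
  rw [map_pow, act_LL, mul_pow, ← map_pow, FiniteField.pow_card_sub_one_eq_one _ hg.ne_zero,
    map_one, one_mul]

lemma IsInv_of_mul (f c : MvPolynomial (Fin n) F) (hf : IsInv f) (hc : IsInv (c * f)) (h0 : f ≠ 0) :
    IsInv c := by
  intro g hg
  have h1 := hc g hg
  rw [map_mul, hf g hg] at h1
  exact mul_right_cancel₀ h0 h1

/-- degree of the top Dickson invariant -/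
lemma delta_mul (n : ℕ) : (Fintype.card F - 1) * delta F n = Fintype.card F ^ n - 1 := by
  unfold delta
  rw [Fin.sum_univ_eq_sum_range (fun i => Fintype.card F ^ i), mul_comm]
  exact geom_sum_mul_of_one_le Fintype.card_pos _

theorem ker_eq (m : ℕ) :
    InvS F (n + 1) m ⊓ LinearMap.ker (rho (F := F) (n := n)).toLinearMap
      = Submodule.map (LinearMap.mulRight F ((LL F (n + 1)) ^ (Fintype.card F - 1)))
        (InvE F (n + 1) (Fintype.card F ^ (n + 1) - 1) m) := by
  have hL : ((LL F (n + 1)) ^ (Fintype.card F - 1)) ≠ 0 := pow_ne_zero _ LL_ne_zero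
  have hLh : ((LL F (n + 1)) ^ (Fintype.card F - 1)).IsHomogeneous (Fintype.card F ^ (n + 1) - 1) := by
    have := (LL_homog (F := F) (n := n + 1)).pow (Fintype.card F - 1)
    rwa [mul_comm, delta_mul] at this
  ext f
  rw [Submodule.mem_inf, Submodule.mem_map, LinearMap.mem_ker]
  constructor
  · rintro ⟨⟨hf1, hf2⟩, hf3⟩
    obtain ⟨c, hc⟩ := ker_LL f hf2 hf3
    rw [mul_comm] at hc
    have hci : IsInv c := IsInv_of_mul _ _ LLq_inv (by rw [← hc]; exact hf2) hL
    refine ⟨if Fintype.card F ^ (n + 1) - 1 ≤ m then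
      homogeneousComponent (m - (Fintype.card F ^ (n + 1) - 1)) c else 0, ?_, ?_⟩
    · unfold InvE
      split_ifs
      · refine ⟨homogeneousComponent_isHomogeneous _ _, fun g hg => ?_⟩
        rw [act_hc, hci g hg]
      · exact Submodule.zero_mem _
    · rw [LinearMap.mulRight_apply]
      conv_rhs => rw [← homogeneousComponent_eq_self hf1, hc, hc_mul _ _ _ _ hLh]
      split_ifs
      · rfl
      · rw [zero_mul]
  · rintro ⟨c, hc, rfl⟩
    obtain ⟨h1, h2⟩ := InvE_spec hc
    rw [LinearMap.mulRight_apply]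
    refine ⟨⟨h2 _ hLh, fun g hg => by rw [map_mul, h1 g hg, LLq_inv g hg]⟩, ?_⟩
    show rho (c * _) = 0
    obtain ⟨u, hu⟩ := X_dvd_LL (F := F) (n := n + 1) 0
    have hq : 1 < Fintype.card F := Fintype.one_lt_card
    rw [map_mul, map_pow, hu, map_mul, rho_X0, zero_mul, zero_pow (by omega), mul_zero]

/-- block matrix with a 1 in the corner -/
def blk (c : Matrix (Fin n) (Fin n) F) : Matrix (Fin (n + 1)) (Fin (n + 1)) F :=
  Matrix.of (Fin.cases (Fin.cases 1 (fun _ => 0)) (fun i => Fin.cases 0 (fun j => c i j)))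

omit [Fintype F] in
lemma det_of_col (g : Matrix (Fin (n + 1)) (Fin (n + 1)) F) (h : ∀ i : Fin n, g i.succ 0 = 0) :
    g.det = g 0 0 * (g.submatrix Fin.succ Fin.succ).det := by
  rw [Matrix.det_succ_column_zero, Finset.sum_eq_single_of_mem 0 (mem_univ _)]
  · simp
  · intro i _ hi
    obtain ⟨j, rfl⟩ := Fin.exists_succ_eq.2 hi
    rw [h j]; ring

omit [Fintype F] in
lemma blk_det (c : Matrix (Fin n) (Fin n) F) : (blk c).det = c.det := by
  rw [det_of_col _ (fun i => rfl)]
  show 1 * _ = _
  rw [one_mul]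
  rfl

omit [Fintype F] in
lemma rho_blk (c : Matrix (Fin n) (Fin n) F) (f : MvPolynomial (Fin (n + 1)) F) :
    rho (act (blk c) f) = act c (rho f) := by
  have h : rho.comp (act (blk c)) = (act c).comp rho := by
    apply algHom_ext
    intro i
    rw [AlgHom.comp_apply, AlgHom.comp_apply, act_X, lf, map_sum, Fin.sum_univ_succ]
    simp only [map_mul, rho_C, rho_X0, rho_Xs, mul_zero, zero_add]
    refine Fin.cases ?_ (fun j => ?_) i
    · rw [rho_X0, map_zero]
      apply sum_eq_zero
      intro x _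
      show C (0 : F) * _ = 0
      rw [C_0, zero_mul]
    · rw [rho_Xs, act_X]
      rfl
  exact congrArg (fun g : MvPolynomial (Fin (n + 1)) F →ₐ[F] MvPolynomial (Fin n) F => g f) h

lemma expand_act (c : Matrix (Fin n) (Fin n) F) (f : MvPolynomial (Fin n) F) :
    expand (Fintype.card F) (act c f) = act c (expand (Fintype.card F) f) := by
  have h : (expand (Fintype.card F)).comp (act c) = (act c).comp (expand (Fintype.card F)) := by
    apply algHom_ext
    intro i
    rw [AlgHom.comp_apply, AlgHom.comp_apply, act_X, expand_X, map_pow, act_X]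
    have := frob_lf (fun k => c k i) 1
    rw [pow_one] at this
    rw [this, lf, map_sum]
    simp only [map_mul, expand_C, expand_X]
  exact congrArg (fun g : MvPolynomial (Fin n) F →ₐ[F] MvPolynomial (Fin n) F => g f) h

omit [Fintype F] in
lemma exists_contract (q : ℕ) (f : MvPolynomial (Fin n) F)
    (h : ∀ m, coeff m f ≠ 0 → ∀ i, q ∣ m i) : ∃ f', f = expand q f' := by
  refine ⟨∑ m ∈ f.support, monomial (m.mapRange (fun x => x / q) (Nat.zero_div q)) (coeff m f), ?_⟩
  rw [map_sum]
  conv_lhs => rw [f.as_sum]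
  apply sum_congr rfl
  intro m hm
  rw [expand_monomial]
  have h1 : q • m.mapRange (fun x => x / q) (Nat.zero_div q) = m := by
    ext i
    rw [Finsupp.smul_apply, Finsupp.mapRange_apply, smul_eq_mul]
    exact Nat.mul_div_cancel' (h m (mem_support_iff.1 hm) i)
  rw [h1]

lemma rho_inv (f : MvPolynomial (Fin (n + 1)) F) (hf : IsInv f) :
    ∃ f', rho f = expand (Fintype.card F) f' ∧ IsInv f' := by
  obtain ⟨f', hf'⟩ := exists_contract (Fintype.card F) (rho f) (by
    intro m hm i
    rw [rho_coeff] at hm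
    have := inv_coeff_dvd f hf 0 i.succ (Fin.succ_ne_zero i).symm _ hm (by simp)
    rwa [Finsupp.cons_succ] at this)
  refine ⟨f', hf', ?_⟩
  intro c hc
  apply expand_injective (R := F) (σ := Fin n) (Fintype.card_pos (α := F))
  rw [expand_act, ← hf', ← rho_blk, hf]
  rw [blk_det]; exact hc

omit [Fintype F] in
lemma degree_smul' (q : ℕ) (x : Fin n →₀ ℕ) : (q • x).degree = q * x.degree := by
  rw [Finsupp.degree_eq_sum, Finsupp.degree_eq_sum, mul_sum]
  rfl

omit [Fintype F] in
lemma contract_homog (q : ℕ) (hq : 0 < q) (f : MvPolynomial (Fin n) F) (m : ℕ)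
    (hf : (expand q f).IsHomogeneous (q * m)) : f.IsHomogeneous m := by
  intro x hx
  rw [← coeff_expand_smul q hq.ne'] at hx
  have h1 := hf hx
  have h2 : (q • x).degree = q * m := by
    rw [Finsupp.degree_eq_weight_one]; exact h1
  rw [degree_smul'] at h2
  have h3 := Nat.eq_of_mul_eq_mul_left hq h2
  rwa [Finsupp.degree_eq_weight_one] at h3

omit [Fintype F] in
lemma contract_zero (q : ℕ) (hq : 0 < q) (f : MvPolynomial (Fin n) F) (m : ℕ) (hm : ¬ q ∣ m)
    (hf : (expand q f).IsHomogeneous m) : f = 0 := by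
  ext x
  rw [coeff_zero]
  by_contra hx
  rw [← coeff_expand_smul q hq.ne'] at hx
  have h1 := hf hx
  have h2 : (q • x).degree = m := by
    rw [Finsupp.degree_eq_weight_one]; exact h1
  rw [degree_smul'] at h2
  exact hm ⟨_, h2.symm⟩

end Pool.Agent.H268R3.Soc
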