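import Pool.Agent.H268R3.Soc.Straight

set_option autoImplicit false

open MvPolynomial Finset

namespace Pool.Agent.H268R3.Soc

variable {A : Type} [CommRing A] {n : ℕ}

/-- span of the semistandard bideterminants -/
noncomputable def ssSpan (A : Type) [CommRing A] (n : ℕ) (c : ℕ) (l : ℕ → ℕ) : Submodule A (ZR A n) :=
  Submodule.span A {w | ∃ T : ℕ → ℕ → Fin n, IsSS c l T ∧ w = bdet A c l T}

/-- sorted version of a filling -/
noncomputable def srt (l : ℕ → ℕ) (T : ℕ → ℕ → Fin n) : ℕ → ℕ → Fin n := fun b j =>
  if h : b < l j then T (Tuple.sort (fun b : Fin (l j) => T b.val j) ⟨b, h⟩).val j else T b j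

lemma srt_apply (l : ℕ → ℕ) (T : ℕ → ℕ → Fin n) (j : ℕ) (b : Fin (l j)) :
    srt l T b.val j = T (Tuple.sort (fun b : Fin (l j) => T b.val j) b).val j := by
  unfold srt
  rw [dif_pos b.isLt]

lemma cdet_srt (l : ℕ → ℕ) (T : ℕ → ℕ → Fin n) (j : ℕ) :
    cdet A (l j) (fun b => srt l T b j)
      = (Equiv.Perm.sign (Tuple.sort (fun b : Fin (l j) => T b.val j)) : ℤ) •
        cdet A (l j) (fun b => T b j) :=
  cdet_perm _ _ _ _ (fun b => srt_apply l T j b)

lemma bdet_srt (c : ℕ) (l : ℕ → ℕ) (T : ℕ → ℕ → Fin n) :
    bdet A c l T = (∏ j ∈ range c,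
      (Equiv.Perm.sign (Tuple.sort (fun b : Fin (l j) => T b.val j)) : ℤ)) • bdet A c l (srt l T) := by
  have h : bdet A c l (srt l T) = (∏ j ∈ range c,
      (Equiv.Perm.sign (Tuple.sort (fun b : Fin (l j) => T b.val j)) : ℤ)) • bdet A c l T := by
    unfold bdet
    rw [prod_congr rfl (fun j _ => cdet_srt l T j)]
    simp only [zsmul_eq_mul]
    rw [prod_mul_distrib]
    push_cast
    rfl
  rw [h, smul_smul, ← prod_mul_distrib]
  have h2 : ∏ j ∈ range c, ((Equiv.Perm.sign (Tuple.sort (fun b : Fin (l j) => T b.val j)) : ℤ) *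
      (Equiv.Perm.sign (Tuple.sort (fun b : Fin (l j) => T b.val j)) : ℤ)) = 1 := by
    apply prod_eq_one
    intro j _
    rw [← Units.val_mul, Int.units_mul_self]; rfl
  rw [h2, one_smul]

lemma ms_srt (c : ℕ) (l : ℕ → ℕ) (T : ℕ → ℕ → Fin n) : ms c l (srt l T) = ms c l T := by
  unfold ms
  apply sum_congr rfl
  intro j _
  rw [← Fin.sum_univ_eq_sum_range (fun b => j * (srt l T b j).val),
    ← Fin.sum_univ_eq_sum_range (fun b => j * (T b j).val)]
  simp only [srt_apply]
  exact Equiv.sum_comp (Tuple.sort (fun b : Fin (l j) => T b.val j)) (fun b => j * (T b.val j).val)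

theorem bdet_mem_ssSpan (c : ℕ) (l : ℕ → ℕ) (hl : ∀ j, j + 1 < c → l (j + 1) ≤ l j)
    (hu : IsUnit ((Nat.factorial (∑ j ∈ range c, l j) : ℕ) : A)) (T : ℕ → ℕ → Fin n) :
    bdet A c l T ∈ ssSpan A n c l := by
  induction hN : (msB n c l - ms c l T) using Nat.strong_induction_on generalizing T with
  | _ N ih =>
  by_cases hrep : ∃ j < c, ∃ b b' : Fin (l j), b ≠ b' ∧ T b.val j = T b'.val j
  · obtain ⟨j, hj, b, b', hne, he⟩ := hrep
    have : bdet A c l T = 0 := by
      unfold bdet
      apply prod_eq_zero (mem_range.2 hj)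
      exact cdet_eq_zero _ _ b b' hne he
    rw [this]
    exact Submodule.zero_mem _
  · push Not at hrep
    have hstrict : ∀ j < c, ∀ b b', b < b' → b' < l j → srt l T b j < srt l T b' j := by
      intro j hj b b' hbb hb'
      have hb : b < l j := by omega
      have h1 := srt_apply l T j ⟨b, hb⟩
      have h2 := srt_apply l T j ⟨b', hb'⟩
      simp only at h1 h2
      rw [h1, h2]
      have hm := Tuple.monotone_sort (fun b : Fin (l j) => T b.val j)
      have hle := hm (show (⟨b, hb⟩ : Fin (l j)) ≤ ⟨b', hb'⟩ from Fin.le_def.2 (le_of_lt hbb))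
      apply lt_of_le_of_ne hle
      apply hrep j hj
      intro he
      have := (Tuple.sort (fun b : Fin (l j) => T b.val j)).injective he
      rw [Fin.mk.injEq] at this
      omega
    rw [bdet_srt]
    apply zsmul_mem
    rw [← ms_srt] at hN
    generalize srt l T = T' at hstrict hN
    by_cases hrow : ∀ j, j + 1 < c → ∀ b < l (j + 1), T' b j ≤ T' b (j + 1)
    · exact Submodule.subset_span ⟨T', ⟨hstrict, hrow⟩, rfl⟩
    · push Not at hrow
      obtain ⟨j0, hj0, i0, hi, hlt⟩ := hrow
      have hM := hl j0 hj0
      -- the word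
      set x := x0 T' i0 j0 with hx
      have hxmono : StrictMono (fun t : Fin (l j0 + 1) => (x t.val).val) := by
        intro s t hst
        have hst' : s.val < t.val := Fin.lt_def.1 hst
        simp only [hx, x0]
        by_cases ht : t.val ≤ i0
        · rw [if_pos ht, if_pos (by omega)]
          exact Fin.lt_def.1 (hstrict (j0 + 1) hj0 _ _ hst' (by omega))
        · rw [if_neg ht]
          have htl := t.isLt
          by_cases hs : s.val ≤ i0
          · rw [if_pos hs]
            have e1 : T' s.val (j0 + 1) ≤ T' i0 (j0 + 1) := by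
              rcases Nat.lt_or_ge s.val i0 with h | h
              · exact le_of_lt (hstrict (j0 + 1) hj0 _ _ h hi)
              · have : s.val = i0 := by omega
                rw [this]
            have e2 : T' i0 j0 ≤ T' (t.val - 1) j0 := by
              rcases Nat.lt_or_ge i0 (t.val - 1) with h | h
              · exact le_of_lt (hstrict j0 (by omega) _ _ h (by omega))
              · have : t.val - 1 = i0 := by omega
                rw [this]
            exact Fin.lt_def.1 (lt_of_le_of_lt e1 (lt_of_lt_of_le hlt e2))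
          · rw [if_neg hs]
            exact Fin.lt_def.1 (hstrict j0 (by omega) _ _ (by omega) (by omega))
      have hT' : Tw T' i0 j0 x = T' := Tw_x0 T' i0 j0
      have hu' : IsUnit ((Nat.factorial (l j0 + 1) : ℕ) : A) := by
        have hle : l j0 + 1 ≤ ∑ j ∈ range c, l j := by
          have h1 : l j0 + l (j0 + 1) ≤ ∑ j ∈ range c, l j := by
            rw [← add_sum_erase (range c) _ (mem_range.2 (show j0 < c by omega)),
              ← add_sum_erase ((range c).erase j0) _ (mem_erase.2 ⟨by omega, mem_range.2 hj0⟩)]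
            omega
          omega
        obtain ⟨m, hm⟩ := Nat.factorial_dvd_factorial hle
        rw [hm, Nat.cast_mul] at hu
        exact isUnit_of_mul_isUnit_left hu
      have hg := garnir_solve (S := A) (l j0) (l (j0 + 1)) i0
        (Matrix.of fun a b => (X (a.val, T' b j0) : ZR A n))
        (Matrix.of fun a b => (X (a.val, T' b (j0 + 1)) : ZR A n)) hM hi
        (fun t a => (X (a.val, x t.val) : ZR A n)) hu'
      have hb := bdet_Tw (A := A) c l T' i0 j0 hj0 hM x
      rw [hT'] at hb
      rw [hb]
      set Rst := (∏ j ∈ ((range c).erase j0).erase (j0 + 1), cdet A (l j) (fun b => T' b j)) with hRst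
      have hmap : ∀ w ∈ Submodule.span A
          {w | ∃ σ : Equiv.Perm (Fin (l j0 + 1)), σ ∉ HH (l j0) i0 ∧
            w = EE (l j0) (l (j0 + 1)) i0 (Matrix.of fun a b => (X (a.val, T' b j0) : ZR A n))
        (Matrix.of fun a b => (X (a.val, T' b (j0 + 1)) : ZR A n)) hM
        (fun t => (fun t a => (X (a.val, x t.val) : ZR A n)) (σ t))},
          Rst * w ∈ ssSpan A n c l := by
        intro w hw
        induction hw using Submodule.span_induction with
        | mem w hw =>
          obtain ⟨σ, hσ, rfl⟩ := hw
          have hb2 := bdet_Tw (A := A) c l T' i0 j0 hj0 hM (px (l j0) σ x)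
          have e1 : (fun (t : Fin (l j0 + 1)) (a : Fin (l j0)) => (X (a.val, px (l j0) σ x t.val) : ZR A n))
            = (fun t => (fun (t : Fin (l j0 + 1)) (a : Fin (l j0)) => (X (a.val, x t.val) : ZR A n)) (σ t)) := by
            funext t a
            rw [px_apply]
          rw [e1] at hb2
          rw [← hb2]
          apply ih (msB n c l - ms c l (Tw T' i0 j0 (px (l j0) σ x))) _ _ rfl
          have hms1 := ms_Tw c l T' i0 j0 hj0 hM hi x
          have hms2 := ms_Tw c l T' i0 j0 hj0 hM hi (px (l j0) σ x)
          rw [hT'] at hms1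
          have hle := ms_le c l (Tw T' i0 j0 (px (l j0) σ x))
          have e2 : ∑ t : Fin (l j0 + 1), (px (l j0) σ x t.val).val
              = ∑ t : Fin (l j0 + 1), (x t.val).val := by
            simp only [px_apply]
            exact Equiv.sum_comp σ (fun t => (x t.val).val)
          have e3 : ∑ t ∈ univ.filter (fun t : Fin (l j0 + 1) => t.val ≤ i0), (px (l j0) σ x t.val).val
            = ∑ t ∈ univ.filter (fun t : Fin (l j0 + 1) => t.val ≤ i0),
              (fun t : Fin (l j0 + 1) => (x t.val).val) (σ t) := by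
            apply sum_congr rfl
            intro t _
            rw [px_apply]
          have e4 := block_sum_lt i0 (show i0 < l j0 by omega)
            (fun t : Fin (l j0 + 1) => (x t.val).val) hxmono σ hσ
          rw [e2, e3] at hms2
          beta_reduce at hms2 e4
          rw [← hN, hms1]
          rw [hms2] at hle
          rw [hms2]
          have hle1 := ms_le c l T'
          rw [hms1] at hle1
          omega
        | zero => rw [mul_zero]; exact Submodule.zero_mem _
        | add a b _ _ ha hb => rw [mul_add]; exact Submodule.add_mem _ ha hb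
        | smul a w _ hw => rw [mul_smul_comm]; exact Submodule.smul_mem _ _ hw
      exact hmap _ hg

end Pool.Agent.H268R3.Soc
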