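import Pool.Agent.H268R3.Soc.GarnirH

set_option autoImplicit false

open MvPolynomial Finset

namespace Pool.Agent.H268R3.Soc

/-- semistandard fillings of the shape with `c` columns of lengths `l 0 ≥ l 1 ≥ …` -/
def IsSS {n : ℕ} (c : ℕ) (l : ℕ → ℕ) (T : ℕ → ℕ → Fin n) : Prop :=
  (∀ j < c, ∀ b b', b < b' → b' < l j → T b j < T b' j) ∧
  (∀ j, j + 1 < c → ∀ b < l (j + 1), T b j ≤ T b (j + 1))

/-- the measure that increases under straightening -/
def ms {n : ℕ} (c : ℕ) (l : ℕ → ℕ) (T : ℕ → ℕ → Fin n) : ℕ :=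
  ∑ j ∈ range c, ∑ b ∈ range (l j), j * (T b j).val

/-- bound for the measure -/
def msB (n : ℕ) (c : ℕ) (l : ℕ → ℕ) : ℕ := ∑ j ∈ range c, ∑ _b ∈ range (l j), j * n

lemma ms_le {n : ℕ} (c : ℕ) (l : ℕ → ℕ) (T : ℕ → ℕ → Fin n) : ms c l T ≤ msB n c l := by
  unfold ms msB
  apply sum_le_sum; intro j _
  apply sum_le_sum; intro b _
  exact Nat.mul_le_mul_left _ (le_of_lt (T b j).isLt)

lemma block_sum_lt {L : ℕ} (i0 : ℕ) (hi : i0 < L) (f : Fin (L + 1) → ℕ) (hf : StrictMono f)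
    (σ : Equiv.Perm (Fin (L + 1))) (hσ : σ ∉ HH L i0) :
    ∑ t ∈ univ.filter (fun t : Fin (L + 1) => t.val ≤ i0), f t <
      ∑ t ∈ univ.filter (fun t : Fin (L + 1) => t.val ≤ i0), f (σ t) := by
  classical
  set S := univ.filter (fun t : Fin (L + 1) => t.val ≤ i0) with hS
  set S' := S.image σ with hS'
  have h1 : ∑ t ∈ S, f (σ t) = ∑ t ∈ S', f t := by
    rw [hS', sum_image]
    intro a _ b _ h
    exact σ.injective h
  rw [h1]
  have hcard : S'.card = S.card := card_image_of_injective _ σ.injective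
  have h2 : (S' \ S).card = (S \ S').card := by
    have e1 := card_sdiff_add_card_inter S' S
    have e2 := card_sdiff_add_card_inter S S'
    rw [inter_comm] at e2
    omega
  have h3 : (S' \ S).Nonempty := by
    by_contra hne
    rw [not_nonempty_iff_eq_empty] at hne
    apply hσ
    have hsub : S' ⊆ S := sdiff_eq_empty_iff_subset.1 hne
    have heq : S' = S := eq_of_subset_of_card_le hsub (by rw [hcard])
    intro t
    constructor
    · intro ht
      have : σ t ∈ S' := by rw [heq, hS]; simpa using ht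
      rw [hS'] at this
      obtain ⟨u, hu, hut⟩ := mem_image.1 this
      rw [σ.injective hut] at hu
      rw [hS] at hu
      simpa using hu
    · intro ht
      have : t ∈ S := by rw [hS]; simpa using ht
      have h4 : σ t ∈ S' := by rw [hS']; exact mem_image_of_mem _ this
      rw [heq, hS] at h4
      simpa using h4
  have e1 : ∑ t ∈ S', f t = ∑ t ∈ S' ∩ S, f t + ∑ t ∈ S' \ S, f t := by
    rw [sum_inter_add_sum_sdiff]
  have e2 : ∑ t ∈ S, f t = ∑ t ∈ S' ∩ S, f t + ∑ t ∈ S \ S', f t := by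
    rw [inter_comm, sum_inter_add_sum_sdiff]
  rw [e1, e2]
  apply Nat.add_lt_add_left
  have e3 : ∑ t ∈ S \ S', f t ≤ (S \ S').card * f ⟨i0, by omega⟩ := by
    rw [← smul_eq_mul]
    apply sum_le_card_nsmul
    intro t ht
    have ht1 : t ∈ S := (mem_sdiff.1 ht).1
    rw [hS] at ht1
    apply hf.monotone
    have : t.val ≤ i0 := by simpa using ht1
    exact Fin.le_def.2 this
  have e4 : (S' \ S).card * f ⟨i0 + 1, by omega⟩ ≤ ∑ t ∈ S' \ S, f t := by
    rw [← smul_eq_mul]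
    apply card_nsmul_le_sum
    intro t ht
    have ht1 : t ∉ S := (mem_sdiff.1 ht).2
    rw [hS] at ht1
    apply hf.monotone
    have : ¬ t.val ≤ i0 := by simpa using ht1
    apply Fin.le_def.2
    simp; omega
  have e5 : f ⟨i0, by omega⟩ < f ⟨i0 + 1, by omega⟩ := hf (Fin.lt_def.2 (by simp))
  have e6 : 0 < (S' \ S).card := card_pos.2 h3
  calc ∑ t ∈ S \ S', f t ≤ (S \ S').card * f ⟨i0, by omega⟩ := e3
    _ = (S' \ S).card * f ⟨i0, by omega⟩ := by rw [h2]
    _ < (S' \ S).card * f ⟨i0 + 1, by omega⟩ := Nat.mul_lt_mul_of_pos_left e5 e6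
    _ ≤ _ := e4

section

variable {n : ℕ} (T : ℕ → ℕ → Fin n) (i0 j0 : ℕ)

/-- insert a word in the Garnir positions -/
def Tw (x : ℕ → Fin n) : ℕ → ℕ → Fin n := fun b j =>
  if j = j0 + 1 ∧ b ≤ i0 then x b else if j = j0 ∧ i0 ≤ b then x (b + 1) else T b j

/-- the word read in the Garnir positions -/
def x0 : ℕ → Fin n := fun t => if t ≤ i0 then T t (j0 + 1) else T (t - 1) j0

lemma Tw_x0 : Tw T i0 j0 (x0 T i0 j0) = T := by
  funext b j
  unfold Tw x0
  by_cases h1 : j = j0 + 1 ∧ b ≤ i0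
  · rw [if_pos h1, if_pos h1.2, h1.1]
  · rw [if_neg h1]
    by_cases h2 : j = j0 ∧ i0 ≤ b
    · rw [if_pos h2, if_neg (by omega), h2.1]
      simp
    · rw [if_neg h2]

/-- permuted word -/
def px {n : ℕ} (L : ℕ) (σ : Equiv.Perm (Fin (L + 1))) (x : ℕ → Fin n) : ℕ → Fin n :=
  fun t => if h : t < L + 1 then x (σ ⟨t, h⟩).val else x t

lemma px_apply (L : ℕ) (σ : Equiv.Perm (Fin (L + 1))) (x : ℕ → Fin n) (t : Fin (L + 1)) :
    px L σ x t.val = x (σ t).val := by
  unfold px
  rw [dif_pos t.isLt]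

end

section

variable {A : Type} [CommRing A] {n : ℕ}

lemma bdet_Tw (c : ℕ) (l : ℕ → ℕ) (T : ℕ → ℕ → Fin n) (i0 j0 : ℕ) (hj : j0 + 1 < c)
    (hM : l (j0 + 1) ≤ l j0) (x : ℕ → Fin n) :
    bdet A c l (Tw T i0 j0 x) =
      (∏ j ∈ ((range c).erase j0).erase (j0 + 1), cdet A (l j) (fun b => T b j)) *
      EE (l j0) (l (j0 + 1)) i0 (Matrix.of fun a b => (X (a.val, T b j0) : ZR A n))
        (Matrix.of fun a b => (X (a.val, T b (j0 + 1)) : ZR A n)) hM
        (fun t a => (X (a.val, x t.val) : ZR A n)) := by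
  unfold bdet
  rw [← mul_prod_erase (range c) _ (mem_range.2 (show j0 < c by omega)),
    ← mul_prod_erase ((range c).erase j0) _ (mem_erase.2 ⟨by omega, mem_range.2 hj⟩)]
  have h1 : cdet A (l j0) (fun b => Tw T i0 j0 x b j0) =
      (lm (l j0) i0 (Matrix.of fun a b => (X (a.val, T b j0) : ZR A n))
        (fun t a => (X (a.val, x t.val) : ZR A n))).det := by
    unfold cdet lm
    congr 1
    ext a b : 2
    simp only [Matrix.of_apply, Tw]
    rw [if_neg (by omega)]
    by_cases hb : b.val < i0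
    · rw [if_pos hb, if_neg (by omega)]
    · rw [if_neg hb, if_pos ⟨trivial, by omega⟩]
      rfl
  have h2 : cdet A (l (j0 + 1)) (fun b => Tw T i0 j0 x b (j0 + 1)) =
      (rm (l j0) (l (j0 + 1)) i0 (Matrix.of fun a b => (X (a.val, T b (j0 + 1)) : ZR A n)) hM
        (fun t a => (X (a.val, x t.val) : ZR A n))).det := by
    unfold cdet rm
    congr 1
    ext a b : 2
    simp only [Matrix.of_apply, Tw]
    by_cases hb : i0 < b.val
    · rw [if_pos hb, if_neg (by omega), if_neg (by omega)]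
    · rw [if_neg hb, if_pos ⟨trivial, by omega⟩]
      rfl
  rw [h1, h2]
  have h3 : ∏ j ∈ ((range c).erase j0).erase (j0 + 1), cdet A (l j) (fun b => Tw T i0 j0 x b j)
      = ∏ j ∈ ((range c).erase j0).erase (j0 + 1), cdet A (l j) (fun b => T b j) := by
    apply prod_congr rfl
    intro j hj'
    have e1 : j ≠ j0 + 1 := (mem_erase.1 hj').1
    have e2 : j ≠ j0 := (mem_erase.1 (mem_erase.1 hj').2).1
    congr 1
    funext b
    simp only [Tw]
    rw [if_neg (by omega), if_neg (by omega)]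
  rw [h3]
  unfold EE
  ring

lemma ms_Tw (c : ℕ) (l : ℕ → ℕ) (T : ℕ → ℕ → Fin n) (i0 j0 : ℕ) (hj : j0 + 1 < c)
    (hM : l (j0 + 1) ≤ l j0) (hi : i0 < l (j0 + 1)) (x : ℕ → Fin n) :
    ms c l (Tw T i0 j0 x) = (∑ j ∈ ((range c).erase j0).erase (j0 + 1), ∑ b ∈ range (l j), j * (T b j).val)
      + (∑ b ∈ range i0, j0 * (T b j0).val)
      + (∑ b ∈ Ico (i0 + 1) (l (j0 + 1)), (j0 + 1) * (T b (j0 + 1)).val)
      + j0 * (∑ t : Fin (l j0 + 1), (x t.val).val)
      + ∑ t ∈ univ.filter (fun t : Fin (l j0 + 1) => t.val ≤ i0), (x t.val).val := by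
  unfold ms
  rw [← add_sum_erase (range c) _ (mem_range.2 (show j0 < c by omega)),
    ← add_sum_erase ((range c).erase j0) _ (mem_erase.2 ⟨by omega, mem_range.2 hj⟩)]
  have h3 : ∑ j ∈ ((range c).erase j0).erase (j0 + 1), ∑ b ∈ range (l j), j * (Tw T i0 j0 x b j).val
      = ∑ j ∈ ((range c).erase j0).erase (j0 + 1), ∑ b ∈ range (l j), j * (T b j).val := by
    apply sum_congr rfl
    intro j hj'
    have e1 : j ≠ j0 + 1 := (mem_erase.1 hj').1
    have e2 : j ≠ j0 := (mem_erase.1 (mem_erase.1 hj').2).1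
    apply sum_congr rfl
    intro b _
    simp only [Tw]
    rw [if_neg (by omega), if_neg (by omega)]
  rw [h3]
  have h4 : ∑ b ∈ range (l j0), j0 * (Tw T i0 j0 x b j0).val =
      ∑ b ∈ range i0, j0 * (T b j0).val + j0 * ∑ b ∈ Ico i0 (l j0), (x (b + 1)).val := by
    rw [range_eq_Ico, ← sum_Ico_consecutive _ (Nat.zero_le i0) (show i0 ≤ l j0 by omega), mul_sum,
      range_eq_Ico]
    congr 1
    · apply sum_congr rfl
      intro b hb
      have := (mem_Ico.1 hb).2
      simp only [Tw]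
      rw [if_neg (by omega), if_neg (by omega)]
    · apply sum_congr rfl
      intro b hb
      have := (mem_Ico.1 hb).1
      simp only [Tw]
      rw [if_neg (by omega), if_pos ⟨trivial, by omega⟩]
  have h5 : ∑ b ∈ range (l (j0 + 1)), (j0 + 1) * (Tw T i0 j0 x b (j0 + 1)).val =
      (j0 + 1) * ∑ b ∈ range (i0 + 1), (x b).val
        + ∑ b ∈ Ico (i0 + 1) (l (j0 + 1)), (j0 + 1) * (T b (j0 + 1)).val := by
    rw [range_eq_Ico, ← sum_Ico_consecutive _ (Nat.zero_le (i0 + 1)) (show i0 + 1 ≤ l (j0 + 1) by omega),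
      mul_sum, range_eq_Ico]
    congr 1
    · apply sum_congr rfl
      intro b hb
      have := (mem_Ico.1 hb).2
      simp only [Tw]
      rw [if_pos ⟨trivial, by omega⟩]
    · apply sum_congr rfl
      intro b hb
      have := (mem_Ico.1 hb).1
      simp only [Tw]
      rw [if_neg (by omega), if_neg (by omega)]
  have h6 : ∑ t : Fin (l j0 + 1), (x t.val).val = ∑ b ∈ range (i0 + 1), (x b).val
      + ∑ b ∈ Ico i0 (l j0), (x (b + 1)).val := by
    rw [Fin.sum_univ_eq_sum_range (fun t => (x t).val) (l j0 + 1), range_eq_Ico,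
      ← sum_Ico_consecutive _ (Nat.zero_le (i0 + 1)) (show i0 + 1 ≤ l j0 + 1 by omega), range_eq_Ico]
    congr 1
    rw [sum_Ico_add' (fun t => (x t).val) i0 (l j0) 1]
  have h7 : ∑ t ∈ univ.filter (fun t : Fin (l j0 + 1) => t.val ≤ i0), (x t.val).val
      = ∑ b ∈ range (i0 + 1), (x b).val := by
    rw [sum_filter, Fin.sum_univ_eq_sum_range (fun t => if t ≤ i0 then (x t).val else 0) (l j0 + 1),
      ← sum_filter]
    apply sum_congr _ (fun _ _ => rfl)
    ext t
    simp only [mem_filter, mem_range]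
    omega
  rw [h4, h5, h6, h7]
  ring

end

end Pool.Agent.H268R3.Soc
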