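import Pool.Agent.H268R3.Soc.Rep
import Pool.Agent.H268R3.Soc.Hilbert

set_option autoImplicit false

open MvPolynomial Finset

namespace Pool.Agent.H268R3.Soc

/-- semistandard tableaux of shape `μ` with entries `< n` -/
abbrev SSYT (n : ℕ) (μ : YoungDiagram) : Type :=
  {T : SemistandardYoungTableau μ // ∀ i j, (i, j) ∈ μ → T i j < n}

instance (n : ℕ) (μ : YoungDiagram) : Finite (SSYT n μ) := by
  apply Finite.of_injective (β := μ.cells → Fin n)
    (fun T c => ⟨T.1 c.1.1 c.1.2, T.2 _ _ ((YoungDiagram.mem_cells _).1 c.2)⟩)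
  intro T T' h
  apply Subtype.ext
  apply SemistandardYoungTableau.ext
  intro i j
  by_cases hc : (i, j) ∈ μ
  · have := congrFun h ⟨(i, j), (YoungDiagram.mem_cells _).2 hc⟩
    exact congrArg Fin.val this
  · rw [T.1.zeros hc, T'.1.zeros hc]

noncomputable instance (n : ℕ) (μ : YoungDiagram) : Fintype (SSYT n μ) := Fintype.ofFinite _

noncomputable instance (n : ℕ) (μ : YoungDiagram) : DecidableEq (SSYT n μ) := Classical.decEq _

lemma sum_cells (μ : YoungDiagram) (f : ℕ × ℕ → ℕ) :
    ∑ c ∈ μ.cells, f c = ∑ j ∈ range (μ.rowLen 0), ∑ b ∈ range (μ.colLen j), f (b, j) := by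
  rw [← sum_fiberwise_of_maps_to (s := μ.cells) (t := range (μ.rowLen 0)) (g := Prod.snd)]
  · apply sum_congr rfl
    intro j _
    have h1 : μ.cells.filter (fun c => c.2 = j) = μ.col j := rfl
    rw [h1, μ.col_eq_prod, sum_product]
    simp
  · intro c hc
    rw [mem_range, ← YoungDiagram.mem_iff_lt_rowLen]
    exact μ.up_left_mem (Nat.zero_le c.1) (le_refl c.2) ((YoungDiagram.mem_cells _).1 hc)

lemma card_cells (μ : YoungDiagram) : ∑ j ∈ range (μ.rowLen 0), μ.colLen j = μ.card := by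
  have := sum_cells μ (fun _ => 1)
  simp only [sum_const, card_range, smul_eq_mul, mul_one] at this
  exact this.symm

variable {n : ℕ} (hn : 0 < n) (μ : YoungDiagram)

/-- the filling attached to a tableau -/
def fil (t : SSYT n μ) : ℕ → ℕ → Fin n := fun b j => ⟨t.1 b j, by
  by_cases hc : (b, j) ∈ μ
  · exact t.2 b j hc
  · rw [t.1.zeros hc]; exact hn⟩

lemma fil_ss (t : SSYT n μ) : IsSS (μ.rowLen 0) μ.colLen (fil hn μ t) := by
  constructor
  · intro j _ b b' hbb hb'
    exact t.1.col_strict hbb (YoungDiagram.mem_iff_lt_colLen.2 hb')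
  · intro j _ b hb
    exact t.1.row_weak (Nat.lt_succ_self j) (YoungDiagram.mem_iff_lt_colLen.2 hb)

lemma lt_rowLen {b j : ℕ} (h : (b, j) ∈ μ) : j < μ.rowLen 0 :=
  YoungDiagram.mem_iff_lt_rowLen.1 (μ.up_left_mem (Nat.zero_le b) (le_refl j) h)

/-- tableau attached to a semistandard filling -/
def tab (T : ℕ → ℕ → Fin n) (hT : IsSS (μ.rowLen 0) μ.colLen T) : SSYT n μ :=
  ⟨{ entry := fun i j => if (i, j) ∈ μ then (T i j).val else 0
     row_weak' := by
      intro i j1 j2 hj hc
      rw [if_pos hc, if_pos (μ.up_left_mem (le_refl i) hj.le hc)]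
      have key : ∀ d, ∀ j1, (i, j1 + d) ∈ μ → (T i j1).val ≤ (T i (j1 + d)).val := by
        intro d
        induction d with
        | zero => intro j1 _; exact le_refl _
        | succ d ih =>
          intro j1 h
          have h' : (i, j1 + d) ∈ μ := μ.up_left_mem (le_refl i) (Nat.le_succ _) h
          refine le_trans (ih j1 h') ?_
          exact Fin.le_def.1 (hT.2 (j1 + d) (lt_rowLen μ h) i (YoungDiagram.mem_iff_lt_colLen.1 h))
      obtain ⟨d, rfl⟩ := Nat.exists_eq_add_of_le hj.le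
      exact key d j1 hc
     col_strict' := by
      intro i1 i2 j hi hc
      rw [if_pos hc, if_pos (μ.up_left_mem hi.le (le_refl j) hc)]
      exact Fin.lt_def.1 (hT.1 j (lt_rowLen μ hc) i1 i2 hi (YoungDiagram.mem_iff_lt_colLen.1 hc))
     zeros' := by
      intro i j hc
      rw [if_neg hc] }, by
   intro i j hc
   show (if (i, j) ∈ μ then (T i j).val else 0) < n
   rw [if_pos hc]
   exact (T i j).isLt⟩

/-- the indexing by tableaux -/
def tsys : Sys n (μ.rowLen 0) μ.colLen (SSYT n μ) where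
  T := fil hn μ
  ss := fil_ss hn μ
  inj := by
    intro t t' h
    apply Subtype.ext
    apply SemistandardYoungTableau.ext
    intro b j
    by_cases hc : (b, j) ∈ μ
    · have := tmon_inj (μ.rowLen 0) μ.colLen (fun j _ => μ.colLen_anti j (j + 1) (Nat.le_succ j))
        (fil hn μ t) (fil hn μ t') (fil_ss hn μ t) (fil_ss hn μ t') h j (lt_rowLen μ hc) b
        (YoungDiagram.mem_iff_lt_colLen.1 hc)
      exact congrArg Fin.val this
    · rw [t.1.zeros hc, t'.1.zeros hc]
  surj := by
    intro T0 hT0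
    refine ⟨tab μ T0 hT0, ?_⟩
    intro j _ b hb
    apply Fin.ext
    show (if (b, j) ∈ μ then (T0 b j).val else 0) = (T0 b j).val
    rw [if_pos (YoungDiagram.mem_iff_lt_colLen.2 hb)]
  anti := fun j _ => μ.colLen_anti j (j + 1) (Nat.le_succ j)

variable {F : Type} [Field F]

lemma fact_unit (p r : ℕ) [Fact p.Prime] [Fintype F] (hF : Fintype.card F = p ^ r)
    (hdp : μ.card ≤ p - 1) :
    IsUnit ((Nat.factorial (∑ j ∈ range (μ.rowLen 0), μ.colLen j) : ℕ) : F) := by
  haveI : CharP F p := charP_of_card_eq_prime_pow hF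
  rw [card_cells]
  apply Ne.isUnit
  rw [Ne, CharP.cast_eq_zero_iff F p, (Fact.out : p.Prime).dvd_factorial]
  have := (Fact.out : p.Prime).two_le
  omega

variable (hu : IsUnit ((Nat.factorial (∑ j ∈ range (μ.rowLen 0), μ.colLen j) : ℕ) : F))

/-- the matrix representation on the tableau basis -/
noncomputable def prep : PRep F n (SSYT n μ) where
  R := fun {B} _ _ Y => Rm (tsys hn μ) hu Y
  R_mul := fun {B} _ _ Y Y' => Rm_mul (tsys hn μ) hu Y Y'
  R_map := fun {B B'} _ _ _ _ φ Y => Rm_map (tsys hn μ) hu φ Y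
  wt := fun t v => wt (μ.rowLen 0) μ.colLen (fil hn μ t) v
  R_diag := fun {B} _ _ t => Rm_diag (tsys hn μ) hu t
  d := ∑ j ∈ range (μ.rowLen 0), μ.colLen j
  wt_sum := fun t => wt_sum _ _ _

lemma edeg_eq [Fintype F] (t : SSYT n μ) :
    edeg (prep hn μ hu) t = ∑ c ∈ μ.cells, Fintype.card F ^ (t.1 c.1 c.2) := by
  rw [sum_cells]
  unfold edeg
  show ∑ v, wt (μ.rowLen 0) μ.colLen (fil hn μ t) v * _ = _
  unfold wt
  simp only [sum_mul]
  rw [sum_comm]
  apply sum_congr rfl
  intro j _
  rw [← sum_fiberwise (range (μ.colLen j)) (fun b => fil hn μ t b j)]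
  apply sum_congr rfl
  intro v _
  rw [sum_congr rfl (g := fun _ => Fintype.card F ^ v.val)]
  · rw [sum_const, smul_eq_mul]
  · intro b hb
    rw [← (mem_filter.1 hb).2]
    rfl

end Pool.Agent.H268R3.Soc
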